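import Pool.Agent.Lib.MP_ae5b4e_an_FV.Defs
import Pool.Agent.Lib.MP_ae5b4e_an_NB2.Defs

/-!
# MP_ae5b4e_an, project FV: the quotient `y2 / y1`
-/

noncomputable section

namespace Pool.Agent.MP_ae5b4e_an_FV

open Complex Set Filter Topology Metric
open Pool.Agent.MP_ae5b4e_an_NB2

variable {Y : Sys} {S : Set ℂ} {f : ℂ → ℂ} {t : ℂ}

private lemma quot_ev (hS : IsOpen S) (hon : Y.On S) (ht : t ∈ S) (h1 : Y.y1 t ≠ 0) :
    ∀ᶠ z in 𝓝 t, z ∈ S ∧ Y.y1 z ≠ 0 :=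
  Filter.Eventually.and (hS.mem_nhds ht) ((hon.d1 t ht).continuousAt.eventually_ne h1)

private lemma quot_ev_eq (hS : IsOpen S) (hon : Y.On S)
    (hf : ∀ t ∈ S, Y.y1 t ≠ 0 → f t = Y.y2 t / Y.y1 t) (ht : t ∈ S) (h1 : Y.y1 t ≠ 0) :
    f =ᶠ[𝓝 t] fun z => Y.y2 z / Y.y1 z := by
  filter_upwards [quot_ev hS hon ht h1] with z hz
  exact hf z hz.1 hz.2

private lemma quot_der (hS : IsOpen S) (hon : Y.On S)
    (hf : ∀ t ∈ S, Y.y1 t ≠ 0 → f t = Y.y2 t / Y.y1 t) (ht : t ∈ S) (h1 : Y.y1 t ≠ 0) :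
    HasDerivAt f (((Y.y1 t) ^ 2)⁻¹) t := by
  have h := (hon.d2 t ht).div (hon.d1 t ht) h1
  have he : (Y.y2' t * Y.y1 t - Y.y2 t * Y.y1' t) / Y.y1 t ^ 2 = ((Y.y1 t) ^ 2)⁻¹ := by
    have hw := hon.wr t ht
    rw [show Y.y2' t * Y.y1 t - Y.y2 t * Y.y1' t = 1 by linear_combination hw, one_div]
  rw [he] at h
  exact h.congr_of_eventuallyEq (quot_ev_eq hS hon hf ht h1)

theorem quot_an (hS : IsOpen S) (hon : Y.On S) (hf : ∀ t ∈ S, Y.y1 t ≠ 0 → f t = Y.y2 t / Y.y1 t)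
    (ht : t ∈ S) (h1 : Y.y1 t ≠ 0) :
    AnalyticAt ℂ f t ∧ deriv f t = ((Y.y1 t) ^ 2)⁻¹ ∧ deriv f t ≠ 0 := by
  have hd := (quot_der hS hon hf ht h1).deriv
  refine ⟨?_, hd, ?_⟩
  · have a1 : AnalyticAt ℂ Y.y1 t :=
      DifferentiableOn.analyticAt (s := S)
        (fun z hz => (hon.d1 z hz).differentiableAt.differentiableWithinAt) (hS.mem_nhds ht)
    have a2 : AnalyticAt ℂ Y.y2 t :=
      DifferentiableOn.analyticAt (s := S)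
        (fun z hz => (hon.d2 z hz).differentiableAt.differentiableWithinAt) (hS.mem_nhds ht)
    exact (a2.div a1 h1).congr (quot_ev_eq hS hon hf ht h1).symm
  · rw [hd]
    exact inv_ne_zero (pow_ne_zero 2 h1)

theorem quot_second (hS : IsOpen S) (hon : Y.On S)
    (hf : ∀ t ∈ S, Y.y1 t ≠ 0 → f t = Y.y2 t / Y.y1 t) (ht : t ∈ S) (h1 : Y.y1 t ≠ 0) :
    deriv (deriv f) t / deriv f t = -2 * (Y.y1' t / Y.y1 t) := by
  have he : deriv f =ᶠ[𝓝 t] fun z => ((Y.y1 z) ^ 2)⁻¹ := by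
    filter_upwards [quot_ev hS hon ht h1] with z hz
    exact (quot_der hS hon hf hz.1 hz.2).deriv
  have h2 : HasDerivAt (fun z => ((Y.y1 z) ^ 2)⁻¹) (-(2 * Y.y1 t ^ 1 * Y.y1' t) / (Y.y1 t ^ 2) ^ 2)
      t := by
    have h := HasDerivAt.inv (((hon.d1 t ht).pow 2)) (pow_ne_zero 2 h1)
    exact (h.congr_deriv (by simp))
  rw [he.deriv_eq, h2.deriv, he.eq_of_nhds]
  field_simp

theorem quot_eq (hf : ∀ t ∈ S, Y.y1 t ≠ 0 → f t = Y.y2 t / Y.y1 t) {u v : ℂ} (hu : u ∈ S)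
    (hv : v ∈ S) (h1 : Y.y1 u ≠ 0) (h2 : Y.y1 v ≠ 0) : Y.s u v = 0 ↔ f u = f v := by
  rw [hf u hu h1, hf v hv h2, div_eq_div_iff h1 h2, Sys.s]
  constructor
  · intro h
    linear_combination h
  · intro h
    linear_combination h

end Pool.Agent.MP_ae5b4e_an_FV
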