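import Pool.Agent.Lib.MP_ae5b4e_an_FV.Quot

/-!
# MP_ae5b4e_an, project FV: no poles near the boundary line
-/

noncomputable section

namespace Pool.Agent.MP_ae5b4e_an_FV

open Complex Set Filter Topology Metric
open Pool.Agent.MP_ae5b4e_an_NBT (St isOpen_St convex_St)
open Pool.Agent.MP_ae5b4e_an_NB2
open Pool.Agent.MP_ae5b4e_an_SVC (Rg Val)

private lemma pole_local {Y : Sys} {h : ℝ} (hon : Y.On (St (-h) h)) {p : ℂ}
    (hp : p ∈ St (-h) h) (h0 : Y.y1 p = 0) {V : Set ℂ} (hV : V ∈ 𝓝 p) :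
    ∀ᶠ w in 𝓝 (0 : ℂ), ∃ u ∈ V, Y.y2 u ≠ 0 ∧ Y.y1 u / Y.y2 u = w := by
  have hS : IsOpen (St (-h) h) := isOpen_St _ _
  have hwr := hon.wr p hp
  rw [h0, zero_mul, zero_sub] at hwr
  have hy2 : Y.y2 p ≠ 0 := by
    intro h
    rw [h, mul_zero, neg_zero] at hwr
    exact zero_ne_one hwr
  have a1 : AnalyticAt ℂ Y.y1 p :=
    DifferentiableOn.analyticAt (fun z hz => (hon.d1 z hz).differentiableAt.differentiableWithinAt)
      (hS.mem_nhds hp)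
  have a2 : AnalyticAt ℂ Y.y2 p :=
    DifferentiableOn.analyticAt (fun z hz => (hon.d2 z hz).differentiableAt.differentiableWithinAt)
      (hS.mem_nhds hp)
  have a3 : AnalyticAt ℂ (fun u => Y.y1 u / Y.y2 u) p := a1.div a2 hy2
  have hd : HasDerivAt (fun u => Y.y1 u / Y.y2 u)
      ((Y.y1' p * Y.y2 p - Y.y1 p * Y.y2' p) / Y.y2 p ^ 2) p := (hon.d1 p hp).div (hon.d2 p hp) hy2
  have hd0 : deriv (fun u => Y.y1 u / Y.y2 u) p ≠ 0 := by
    rw [hd.deriv, h0, zero_mul, sub_zero]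
    have : Y.y1' p * Y.y2 p = -1 := by linear_combination -hwr
    rw [this]
    exact div_ne_zero (by norm_num) (pow_ne_zero 2 hy2)
  have hmap := (a3.hasStrictDerivAt).map_nhds_eq hd0
  have e0 : Y.y1 p / Y.y2 p = 0 := by simp [h0]
  rw [e0] at hmap
  have hV2 : V ∩ {u | Y.y2 u ≠ 0} ∈ 𝓝 p :=
    inter_mem hV (a2.continuousAt.eventually_ne hy2)
  have himg : (fun u => Y.y1 u / Y.y2 u) '' (V ∩ {u | Y.y2 u ≠ 0}) ∈ 𝓝 (0 : ℂ) := by
    rw [← hmap]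
    exact image_mem_map hV2
  filter_upwards [himg] with w hw
  obtain ⟨u, hu, rfl⟩ := hw
  exact ⟨u, hu.1, hu.2, rfl⟩

/-- a finitely valent curve has no poles near the boundary line -/
theorem pole_free {Y : Sys} {f : ℂ → ℂ} {h : ℝ} {N : ℕ} (hh : 0 < h) (hon : Y.On (St (-h) h))
    (hf : ∀ t ∈ St (-h) h, Y.y1 t ≠ 0 → f t = Y.y2 t / Y.y1 t) (hN : Val f (St (-h) h) N) :
    ∃ l : ℝ, 0 < l ∧ l ≤ h / 2 ∧ l ≤ 1 / 8 ∧
      ∀ t : ℂ, |t.re| < 2 * l → h - 2 * l < t.im → t.im < h → Y.y1 t ≠ 0 := by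
  by_contra hcon
  push Not at hcon
  set Z : Set ℂ := {p | |p.re| < 1 / 4 ∧ 0 < p.im ∧ p.im < h ∧ Y.y1 p = 0} with hZ
  -- there are infinitely many zeros
  have hinf : Z.Infinite := by
    intro hfin
    have hl : ∃ l : ℝ, 0 < l ∧ l ≤ h / 2 ∧ l ≤ 1 / 8 ∧ ∀ p ∈ Z, 2 * l ≤ h - p.im := by
      have h1 : ∀ᶠ l in 𝓝[>] (0 : ℝ), ∀ p ∈ Z, 2 * l ≤ h - p.im := by
        rw [hfin.eventually_all]
        intro p hp
        have hpos : 0 < (h - p.im) / 2 := by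
          have := hp.2.2.1
          linarith
        filter_upwards [Ioo_mem_nhdsGT hpos] with l hl
        linarith [hl.2]
      have h2 : ∀ᶠ l in 𝓝[>] (0 : ℝ), l ∈ Ioo 0 (h / 2) := Ioo_mem_nhdsGT (by linarith)
      have h3 : ∀ᶠ l in 𝓝[>] (0 : ℝ), l ∈ Ioo 0 (1 / 8 : ℝ) := Ioo_mem_nhdsGT (by norm_num)
      obtain ⟨l, hl1, hl2, hl3⟩ := (h1.and (h2.and h3)).exists
      exact ⟨l, hl2.1, hl2.2.le, hl3.2.le, hl1⟩
    obtain ⟨l, hl0, hl1, hl2, hl3⟩ := hl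
    obtain ⟨t, ht1, ht2, ht3, ht4⟩ := hcon l hl0 hl1 hl2
    have htZ : t ∈ Z := ⟨by linarith, by linarith, ht3, ht4⟩
    have := hl3 t htZ
    linarith
  obtain ⟨s, hsZ, hsc⟩ := hinf.exists_subset_card_eq (N + 1)
  have hp : ∃ p : Fin (N + 1) → ℂ, Function.Injective p ∧ ∀ i, p i ∈ Z := by
    refine ⟨fun i => (s.equivFinOfCardEq hsc).symm i, ?_, fun i => hsZ (Subtype.coe_prop _)⟩
    intro i j hij
    exact (s.equivFinOfCardEq hsc).symm.injective (Subtype.ext hij)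
  obtain ⟨p, hpi, hpZ⟩ := hp
  have hpS : ∀ i, p i ∈ St (-h) h := by
    intro i
    obtain ⟨-, h1, h2, -⟩ := hpZ i
    exact ⟨by linarith, h2⟩
  -- the radius
  have hρ : ∃ ρ : ℝ, 0 < ρ ∧ ∀ i j, i ≠ j → 2 * ρ ≤ dist (p i) (p j) := by
    have h1 : ∀ᶠ ρ in 𝓝[>] (0 : ℝ), ∀ i j, i ≠ j → 2 * ρ ≤ dist (p i) (p j) := by
      rw [eventually_all]
      intro i
      rw [eventually_all]
      intro j
      by_cases hij : i = j
      · exact Eventually.of_forall fun _ h => absurd hij h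
      · have hpos : 0 < dist (p i) (p j) / 2 := by
          have := dist_pos.mpr (fun h => hij (hpi h))
          linarith
        filter_upwards [Ioo_mem_nhdsGT hpos] with l hl _
        linarith [hl.2]
    obtain ⟨ρ, h2, h3⟩ := (h1.and self_mem_nhdsWithin).exists
    exact ⟨ρ, h3, h2⟩
  obtain ⟨ρ, hρ0, hρ⟩ := hρ
  -- the points with the same value
  have hV : ∀ i, (ball (p i) ρ ∩ {u : ℂ | |u.re| < 1 / 4}) ∩ St (-h) h ∈ 𝓝 (p i) := by
    intro i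
    refine inter_mem (inter_mem (ball_mem_nhds _ hρ0) ?_) ((isOpen_St _ _).mem_nhds (hpS i))
    exact (isOpen_lt (by fun_prop) continuous_const).mem_nhds (hpZ i).1
  have hall : ∀ᶠ w in 𝓝 (0 : ℂ), ∀ i, ∃ u ∈ (ball (p i) ρ ∩ {u : ℂ | |u.re| < 1 / 4}) ∩ St (-h) h,
      Y.y2 u ≠ 0 ∧ Y.y1 u / Y.y2 u = w := by
    rw [eventually_all]
    intro i
    exact pole_local hon (hpS i) (hpZ i).2.2.2 (hV i)
  obtain ⟨w, hw, hw0⟩ := ((hall.filter_mono nhdsWithin_le_nhds).and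
    (self_mem_nhdsWithin : {(0 : ℂ)}ᶜ ∈ 𝓝[≠] (0 : ℂ))).exists
  have hw0 : w ≠ 0 := hw0
  choose u hu hu2 huw using hw
  have hu1 : ∀ i, Y.y1 (u i) ≠ 0 := by
    intro i h1
    apply hw0
    rw [← huw i, h1, zero_div]
  have hfu : ∀ i, f (u i) = w⁻¹ := by
    intro i
    rw [hf _ (hu i).2 (hu1 i), ← huw i, inv_div]
  obtain ⟨i, j, hij, n, hn⟩ := hN u (fun i => ⟨(hu i).2, by
    obtain ⟨h1, -, h2⟩ := quot_an (isOpen_St _ _) hon hf (hu i).2 (hu1 i)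
    exact ⟨h1, h2⟩, by rw [hfu i, hfu 0]⟩)
  have hn0 : n = 0 := by
    have h1 : |(u i).re| < 1 / 4 := (hu i).1.2
    have h2 : |(u j).re| < 1 / 4 := (hu j).1.2
    have h3 : (u j).re = (u i).re + n := by
      rw [hn]
      simp
    rw [abs_lt] at h1 h2
    have h4 : (n : ℝ) < 1 := by linarith [h1.1, h2.2]
    have h5 : (-1 : ℝ) < n := by linarith [h1.2, h2.1]
    have h6 : n < 1 := by exact_mod_cast h4
    have h7 : -1 < n := by exact_mod_cast h5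
    omega
  have he : u j = u i := by
    rw [hn, hn0]
    simp
  have h1 : dist (u i) (p i) < ρ := (hu i).1.1
  have h2 : dist (u j) (p j) < ρ := (hu j).1.1
  rw [he] at h2
  have h3 := dist_triangle_left (p i) (p j) (u i)
  have h4 := hρ i j hij
  linarith

end Pool.Agent.MP_ae5b4e_an_FV
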