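import Pool.Agent.Lib.MP_ae5b4e_an_FV.Defs
import Pool.Agent.Lib.MP_ae5b4e_an_FVH.Bound
import Pool.Agent.Lib.MP_ae5b4e_an_FVH.Lim

/-!
# MP_ae5b4e_an, project FV: the two theorems on finitely valent functions which are used
-/

noncomputable section

namespace Pool.Agent.MP_ae5b4e_an_FV

open Complex Set Filter Topology Metric

/-- finitely valent locally univalent functions: bound of the second derivative -/
theorem presch (N : ℕ) : ∃ C > 0, ∀ (f : ℂ → ℂ) (c : ℂ) (r : ℝ), 0 < r →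
    DifferentiableOn ℂ f (ball c r) → (∀ z ∈ ball c r, deriv f z ≠ 0) → NVal f (ball c r) N →
    ∀ z ∈ ball c r, ‖deriv (deriv f) z / deriv f z‖ * (r - dist z c) ≤ C := by
  obtain ⟨C, hC, h⟩ := Pool.Agent.MP_ae5b4e_an_FVH.presch_bound N
  exact ⟨C, hC, fun f c r _ hf hne hN =>
    h f c r hf hne (Pool.Agent.MP_ae5b4e_an_FVH.nv_iff.mpr hN)⟩

/-- **Theorem A**: a finitely valent locally univalent function near a boundary point of a half
disc is univalent on discs which are almost tangent to the boundary -/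
theorem top_uni (β : ℂ) {δ : ℝ} (hδ : 0 < δ) {N : ℕ} {f : ℂ → ℂ}
    (hf : DifferentiableOn ℂ f (ball β δ ∩ {z | z.im < β.im}))
    (hne : ∀ z ∈ ball β δ ∩ {z | z.im < β.im}, deriv f z ≠ 0)
    (hN : NVal f (ball β δ ∩ {z | z.im < β.im}) N) {θ : ℝ} (h0 : 0 < θ) (h1 : θ < 1) :
    ∀ ε > 0, ∃ w ∈ ball β ε, w ∈ ball β δ ∩ {z | z.im < β.im} ∧
      InjOn f (ball w (θ * (β.im - w.im))) := by
  intro ε hε
  obtain ⟨w, hw, hwD, -, hinj⟩ :=
    Pool.Agent.MP_ae5b4e_an_FVH.top_uni β hδ N hf hne hN h0 h1 ε hε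
  exact ⟨w, hw, hwD, hinj⟩

end Pool.Agent.MP_ae5b4e_an_FV
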