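import Pool.Agent.Lib.MP_ae5b4e_an_FV.Quot
import Pool.Agent.Lib.MP_ae5b4e_an_FV.Api

/-!
# MP_ae5b4e_an, project FV: the condition `|Q| d ^ 2 ≤ q ^ 2`
-/

noncomputable section

namespace Pool.Agent.MP_ae5b4e_an_FV

open Complex Set Filter Topology Metric
open Pool.Agent.MP_ae5b4e_an_NBT (St isOpen_St convex_St)
open Pool.Agent.MP_ae5b4e_an_NB2

theorem arc_of_val {Y : Sys} {f : ℂ → ℂ} {h l : ℝ} {N : ℕ} (hh : 0 < h) (hl : 0 < l)
    (hlh : l ≤ h / 2) (hon : Y.On (St (-h) h))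
    (hf : ∀ t ∈ St (-h) h, Y.y1 t ≠ 0 → f t = Y.y2 t / Y.y1 t)
    (hy : ∀ t : ℂ, |t.re| < 2 * l → h - 2 * l < t.im → t.im < h → Y.y1 t ≠ 0)
    (hN : NVal f {t : ℂ | |t.re| < 2 * l ∧ h - 2 * l < t.im ∧ t.im < h} N) :
    ∃ q : ℝ, 1 ≤ q ∧ Arc Y h 0 l q := by
  obtain ⟨C, hC, hP⟩ := presch N
  refine ⟨1 + 2 * C, by linarith, hl, hlh, by linarith, ?_⟩
  intro t ht hd hdl
  rw [sub_zero] at ht
  have hdt : t.im = h - dep h t := by
    unfold dep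
    ring
  set d : ℝ := dep h t with hddef
  have hsubD : ∀ z ∈ ball t d, |z.re| < 2 * l ∧ h - 2 * l < z.im ∧ z.im < h := by
    intro z hz
    rw [mem_ball, dist_eq_norm] at hz
    have h1 : |(z - t).re| ≤ ‖z - t‖ := abs_re_le_norm _
    have h2 : |(z - t).im| ≤ ‖z - t‖ := abs_im_le_norm _
    rw [sub_re] at h1
    rw [sub_im] at h2
    have h3 := abs_le.1 (h1.trans hz.le)
    have h4 := abs_lt.1 (h2.trans_lt hz)
    have h5 := abs_lt.1 ht
    refine ⟨abs_lt.2 ⟨by linarith, by linarith⟩, by linarith, by linarith⟩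
  have hsubS : ∀ z ∈ ball t d, z ∈ St (-h) h := by
    intro z hz
    obtain ⟨-, h2, h3⟩ := hsubD z hz
    exact ⟨by linarith, h3⟩
  have hy1 : ∀ z ∈ ball t d, Y.y1 z ≠ 0 := fun z hz =>
    hy z (hsubD z hz).1 (hsubD z hz).2.1 (hsubD z hz).2.2
  have hO : IsOpen (St (-h) h) := isOpen_St _ _
  have hdiff : DifferentiableOn ℂ f (ball t d) := fun z hz =>
    (quot_an hO hon hf (hsubS z hz) (hy1 z hz)).1.differentiableAt.differentiableWithinAt
  have hne : ∀ z ∈ ball t d, deriv f z ≠ 0 := fun z hz =>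
    (quot_an hO hon hf (hsubS z hz) (hy1 z hz)).2.2
  have hNb : NVal f (ball t d) N := fun u hu1 hu2 => hN u (fun i => hsubD _ (hu1 i)) hu2
  have hB : ∀ z ∈ ball t d, 2 * ‖Y.y1' z / Y.y1 z‖ * (d - dist z t) ≤ C := by
    intro z hz
    have h1 := hP f t d hd hdiff hne hNb z hz
    rw [quot_second hO hon hf (hsubS z hz) (hy1 z hz), norm_mul] at h1
    have h2 : ‖(-2 : ℂ)‖ = 2 := by simp
    rwa [h2] at h1
  have hder : ∀ z ∈ ball t d, HasDerivAt (fun w => Y.y1' w / Y.y1 w)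
      (-Y.Q z - (Y.y1' z / Y.y1 z) ^ 2) z := by
    intro z hz
    have h1 := (hon.d1' z (hsubS z hz)).div (hon.d1 z (hsubS z hz)) (hy1 z hz)
    have h2 := hy1 z hz
    refine h1.congr_deriv ?_
    field_simp
  have hcb : closedBall t (d / 2) ⊆ ball t d := closedBall_subset_ball (by linarith)
  have hdc : DiffContOnCl ℂ (fun w => Y.y1' w / Y.y1 w) (ball t (d / 2)) := by
    refine DifferentiableOn.diffContOnCl_ball (U := ball t d) ?_ hcb
    exact fun z hz => (hder z hz).differentiableAt.differentiableWithinAt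
  have hcau := norm_deriv_le_of_forall_mem_sphere_norm_le (by linarith : (0:ℝ) < d / 2) hdc
    (C := C / d) (by
      intro z hz
      have h1 := hB z (hcb (sphere_subset_closedBall hz))
      rw [mem_sphere] at hz
      rw [hz] at h1
      rw [le_div_iff₀ hd]
      have h2 : d - d / 2 = d / 2 := by ring
      rw [h2] at h1
      linarith)
  have ht0 : t ∈ ball t d := mem_ball_self hd
  rw [(hder t ht0).deriv] at hcau
  have hb0 := hB t ht0
  rw [dist_self, sub_zero] at hb0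
  set b : ℂ := Y.y1' t / Y.y1 t with hbdef
  have hQ : ‖Y.Q t‖ ≤ ‖-Y.Q t - b ^ 2‖ + ‖b‖ ^ 2 := by
    have h1 : Y.Q t = -((-Y.Q t - b ^ 2) + b ^ 2) := by ring
    calc ‖Y.Q t‖ = ‖-((-Y.Q t - b ^ 2) + b ^ 2)‖ := by rw [← h1]
      _ = ‖(-Y.Q t - b ^ 2) + b ^ 2‖ := norm_neg _
      _ ≤ ‖-Y.Q t - b ^ 2‖ + ‖b ^ 2‖ := norm_add_le _ _
      _ = ‖-Y.Q t - b ^ 2‖ + ‖b‖ ^ 2 := by rw [norm_pow]
  have h1 : ‖-Y.Q t - b ^ 2‖ * d ^ 2 ≤ 2 * C := by
    have h2 : C / d / (d / 2) * d ^ 2 = 2 * C := by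
      field_simp
    calc ‖-Y.Q t - b ^ 2‖ * d ^ 2 ≤ C / d / (d / 2) * d ^ 2 :=
          mul_le_mul_of_nonneg_right hcau (by positivity)
      _ = 2 * C := h2
  have h3 : ‖b‖ * d ≤ C := by
    have := mul_nonneg (norm_nonneg b) hd.le
    nlinarith
  have h4 : ‖b‖ ^ 2 * d ^ 2 ≤ C ^ 2 := by
    rw [← mul_pow]
    exact pow_le_pow_left₀ (mul_nonneg (norm_nonneg b) hd.le) h3 2
  have h5 : ‖Y.Q t‖ * d ^ 2 ≤ (‖-Y.Q t - b ^ 2‖ + ‖b‖ ^ 2) * d ^ 2 :=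
    mul_le_mul_of_nonneg_right hQ (by positivity)
  nlinarith

end Pool.Agent.MP_ae5b4e_an_FV
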