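import Mathlib

/-!
# MP_ae5b4e_an, project FV: elliptic functions are algebraically dependent
-/

noncomputable section

namespace Pool.Agent.MP_ae5b4e_an_FV

open Complex Set Filter Topology Metric
open scoped Polynomial
open Polynomial (evalEval)

/-- Taylor expansion with remainder -/
private theorem taylor_rem (M : ℕ) : ∀ {φ : ℂ → ℂ} {s : ℂ}, AnalyticAt ℂ φ s →
    ∃ (a : Fin M → ℂ) (R : ℂ → ℂ), AnalyticAt ℂ R s ∧
      ∀ z, φ z = ∑ n, a n * (z - s) ^ (n : ℕ) + (z - s) ^ M * R z := by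
  induction M with
  | zero =>
    intro φ s h
    exact ⟨fun n => n.elim0, φ, h, fun z => by simp⟩
  | succ M ih =>
    intro φ s h
    have h1 : AnalyticAt ℂ (dslope φ s) s := by
      obtain ⟨p, hp⟩ := h
      exact ⟨p.fslope, hp.has_fpower_series_dslope_fslope⟩
    obtain ⟨a, R, hR, ha⟩ := ih h1
    refine ⟨Fin.cons (φ s) a, R, hR, fun z => ?_⟩
    have h2 : (z - s) * dslope φ s z = φ z - φ s := by
      have := sub_smul_dslope φ s z
      rwa [smul_eq_mul] at this
    have h3 : φ z = φ s + (z - s) * dslope φ s z := by rw [h2]; ring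
    rw [h3, ha z, Fin.sum_univ_succ, mul_add, Finset.mul_sum]
    simp only [Fin.cons_zero, Fin.val_zero, pow_zero, mul_one, Fin.cons_succ, Fin.val_succ]
    have h4 : ∀ n : Fin M, (z - s) * (a n * (z - s) ^ (n : ℕ)) =
        a n * (z - s) ^ ((n : ℕ) + 1) := fun n => by ring
    rw [Finset.sum_congr rfl fun n _ => h4 n]
    ring

/-- the periods, up to isolated points -/
private def Per (u : ℂ → ℂ) (l : ℂ) : Prop := ∀ t, (fun s => u (s + l)) =ᶠ[𝓝[≠] t] u

private theorem tendsto_add_punct (t l : ℂ) :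
    Tendsto (fun s => s + l) (𝓝[≠] t) (𝓝[≠] (t + l)) := by
  rw [tendsto_nhdsWithin_iff]
  constructor
  · exact ((continuous_id.add continuous_const).tendsto t).mono_left nhdsWithin_le_nhds
  · filter_upwards [self_mem_nhdsWithin] with s hs
    intro h
    exact hs (add_right_cancel h)

private theorem per_add {u : ℂ → ℂ} {l m : ℂ} (hl : Per u l) (hm : Per u m) :
    Per u (l + m) := by
  intro t
  have h1 := (tendsto_add_punct t m).eventually (hl (t + m))
  filter_upwards [h1, hm t] with s h2 h3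
  have h4 : s + (l + m) = s + m + l := by ring
  show u (s + (l + m)) = u s
  rw [h4, h2]
  exact h3

private theorem per_neg {u : ℂ → ℂ} {l : ℂ} (hl : Per u l) : Per u (-l) := by
  intro t
  have h1 := (tendsto_add_punct t (-l)).eventually (hl (t + -l))
  filter_upwards [h1] with s h2
  have h3 : s + -l + l = s := by ring
  show u (s + -l) = u s
  rw [← h2, h3]

private def perSub (u : ℂ → ℂ) : AddSubgroup ℂ where
  carrier := {l | Per u l}
  add_mem' := fun hl hm => per_add hl hm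
  zero_mem' := fun t => by simp
  neg_mem' := fun hl => per_neg hl

/-- reduction to the parallelogram -/
private theorem reduce {w₀ : ℂ} (hw : w₀.im ≠ 0) (t : ℂ) : ∃ k l : ℤ, ∃ a ∈ Icc (0 : ℝ) 1,
    ∃ b ∈ Icc (0 : ℝ) 1, t = (a + b * w₀) + (k + l * w₀) := by
  set b' : ℝ := t.im / w₀.im with hb
  set a' : ℝ := t.re - b' * w₀.re with ha
  refine ⟨⌊a'⌋, ⌊b'⌋, Int.fract a', ⟨Int.fract_nonneg _, (Int.fract_lt_one _).le⟩,
    Int.fract b', ⟨Int.fract_nonneg _, (Int.fract_lt_one _).le⟩, ?_⟩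
  have h1 : t = (a' : ℂ) + b' * w₀ := by
    apply Complex.ext
    · simp [ha]
    · simp [hb, div_mul_cancel₀ _ hw]
  have h2 : (a' : ℂ) = (Int.fract a' : ℝ) + (⌊a'⌋ : ℤ) := by
    rw [← Complex.ofReal_intCast, ← Complex.ofReal_add, Int.fract_add_floor]
  have h3 : (b' : ℂ) = (Int.fract b' : ℝ) + (⌊b'⌋ : ℤ) := by
    rw [← Complex.ofReal_intCast, ← Complex.ofReal_add, Int.fract_add_floor]
  rw [h1]
  nth_rewrite 1 [h2]
  nth_rewrite 1 [h3]
  ring

/-- a doubly periodic function without poles is constant off isolated points -/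
private theorem liouville_per {h : ℂ → ℂ} {w₀ : ℂ} (hw : w₀.im ≠ 0) (h1 : Per h 1)
    (h2 : Per h w₀) (hR : ∀ a ∈ Icc (0 : ℝ) 1, ∀ b ∈ Icc (0 : ℝ) 1,
      ∃ R : ℂ → ℂ, AnalyticAt ℂ R (a + b * w₀) ∧ h =ᶠ[𝓝[≠] (a + b * w₀)] R) {t₀ : ℂ}
    (ht₀ : AnalyticAt ℂ h t₀) (h0 : h t₀ = 0) : ∀ t, ∀ᶠ s in 𝓝[≠] t, h s = 0 := by
  have hlat : ∀ k l : ℤ, Per h (k + l * w₀) := by
    intro k l
    have e1 : (k : ℂ) ∈ perSub h := by
      have := (perSub h).zsmul_mem (show (1 : ℂ) ∈ perSub h from h1) k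
      simpa using this
    have e2 : (l : ℂ) * w₀ ∈ perSub h := by
      have := (perSub h).zsmul_mem (show w₀ ∈ perSub h from h2) l
      simpa using this
    exact (perSub h).add_mem e1 e2
  -- regular everywhere
  have hreg : ∀ t, ∃ R : ℂ → ℂ, AnalyticAt ℂ R t ∧ h =ᶠ[𝓝[≠] t] R := by
    intro t
    obtain ⟨k, l, a, ha, b, hb, rfl⟩ := reduce hw t
    obtain ⟨R, hRa, hRe⟩ := hR a ha b hb
    set p : ℂ := (a : ℂ) + b * w₀ with hp
    set m : ℂ := (k : ℂ) + l * w₀ with hm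
    refine ⟨fun s => R (s + -m), ?_, ?_⟩
    · have e1 : p + m + -m = p := by ring
      refine AnalyticAt.fun_comp (g := R) (f := fun s => s + -m) ?_ ?_
      · rw [e1]; exact hRa
      · fun_prop
    · have e1 := hlat k l
      have e2 := per_neg e1 (p + m)
      have e3 := tendsto_add_punct (p + m) (-m)
      have e4 : p + m + -m = p := by ring
      rw [e4] at e3
      filter_upwards [e2, e3.eventually hRe] with s h3 h4
      rw [← h3, ← h4]
  choose R hRa hRe using hreg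
  set E : ℂ → ℂ := fun t => R t t with hE
  have hlim : ∀ t, Tendsto h (𝓝[≠] t) (𝓝 (E t)) := by
    intro t
    have e1 : Tendsto (R t) (𝓝[≠] t) (𝓝 (R t t)) :=
      ((hRa t).continuousAt.tendsto).mono_left nhdsWithin_le_nhds
    exact e1.congr' (hRe t).symm
  have hEloc : ∀ t, E =ᶠ[𝓝 t] R t := by
    intro t
    have e1 : ∀ᶠ s in 𝓝 t, s ≠ t → h s = R t s := by
      have := hRe t
      rw [Filter.EventuallyEq, eventually_nhdsWithin_iff] at this
      exact this
    have e2 := e1.eventually_nhds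
    have e3 := (hRa t).eventually_analyticAt
    filter_upwards [e2, e3] with s h3 h4
    by_cases hst : s = t
    · rw [hst]
    · have e5 : Tendsto (R t) (𝓝[≠] s) (𝓝 (R t s)) :=
        (h4.continuousAt.tendsto).mono_left nhdsWithin_le_nhds
      have e6 : h =ᶠ[𝓝[≠] s] R t := by
        have e7 : ∀ᶠ x in 𝓝 s, x ≠ t := isOpen_ne.eventually_mem hst
        filter_upwards [nhdsWithin_le_nhds h3, nhdsWithin_le_nhds e7] with x h8 h9
        exact h8 h9
      exact tendsto_nhds_unique (hlim s) (e5.congr' e6.symm)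
  have hEan : ∀ t, AnalyticAt ℂ E t := fun t => (hRa t).congr (hEloc t).symm
  have hEdiff : Differentiable ℂ E := fun t => (hEan t).differentiableAt
  have hEper : ∀ k l : ℤ, ∀ t, E (t + (k + l * w₀)) = E t := by
    intro k l t
    have e1 := (hlim (t + (k + l * w₀))).comp (tendsto_add_punct t (k + l * w₀))
    exact tendsto_nhds_unique (e1.congr' (hlat k l t)) (hlim t)
  have hbdd : Bornology.IsBounded (range E) := by
    have hc : IsCompact ((fun q : ℝ × ℝ => E (q.1 + q.2 * w₀)) '' (Icc 0 1 ×ˢ Icc 0 1)) := by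
      refine (isCompact_Icc.prod isCompact_Icc).image ?_
      exact hEdiff.continuous.comp (by fun_prop)
    refine hc.isBounded.subset ?_
    rintro _ ⟨t, rfl⟩
    obtain ⟨k, l, a, ha, b, hb, rfl⟩ := reduce hw t
    rw [hEper]
    exact ⟨(a, b), ⟨ha, hb⟩, rfl⟩
  have hEt₀ : E t₀ = 0 := by
    have e1 : Tendsto h (𝓝[≠] t₀) (𝓝 (h t₀)) :=
      (ht₀.continuousAt.tendsto).mono_left nhdsWithin_le_nhds
    rw [tendsto_nhds_unique (hlim t₀) e1, h0]
  have hEz : ∀ t, E t = 0 := by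
    intro t
    rw [hEdiff.apply_eq_apply_of_bounded hbdd t t₀, hEt₀]
  intro t
  filter_upwards [hRe t, nhdsWithin_le_nhds (hEloc t)] with s e1 e2
  rw [e1, ← e2, hEz]

/-- two elliptic functions for the periods `1` and `w₀` satisfy an algebraic equation -/
theorem ell_dep {f g : ℂ → ℂ} {w₀ : ℂ} (hw : w₀.im ≠ 0) (hf : ∀ t, MeromorphicAt f t)
    (hg : ∀ t, MeromorphicAt g t) (f1 : ∀ t, (fun s => f (s + 1)) =ᶠ[𝓝[≠] t] f)
    (f2 : ∀ t, (fun s => f (s + w₀)) =ᶠ[𝓝[≠] t] f) (g1 : ∀ t, (fun s => g (s + 1)) =ᶠ[𝓝[≠] t] g)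
    (g2 : ∀ t, (fun s => g (s + w₀)) =ᶠ[𝓝[≠] t] g) :
    ∃ P : ℂ[X][X], P ≠ 0 ∧ ∀ t, ∀ᶠ s in 𝓝[≠] t, evalEval (f s) (g s) P = 0 := by
  classical
  -- the finitely many exceptional points
  have hgood : ∀ t, ∀ᶠ s in 𝓝[≠] t, AnalyticAt ℂ f s ∧ AnalyticAt ℂ g s := fun t =>
    ((hf t).eventually_analyticAt).and ((hg t).eventually_analyticAt)
  have hPi : IsCompact ((fun q : ℝ × ℝ => (q.1 + q.2 * w₀ : ℂ)) '' (Icc 0 1 ×ˢ Icc 0 1)) := by
    refine (isCompact_Icc.prod isCompact_Icc).image ?_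
    fun_prop
  obtain ⟨F, -, hF⟩ := hPi.elim_nhds_subcover
    (fun t => {s | s ≠ t → AnalyticAt ℂ f s ∧ AnalyticAt ℂ g s}) (fun t _ => by
      have := hgood t
      rw [eventually_nhdsWithin_iff] at this
      exact this)
  have hFgood : ∀ a ∈ Icc (0 : ℝ) 1, ∀ b ∈ Icc (0 : ℝ) 1, ((a : ℂ) + b * w₀) ∉ F →
      AnalyticAt ℂ f (a + b * w₀) ∧ AnalyticAt ℂ g (a + b * w₀) := by
    intro a ha b hb hn
    have e1 := hF ⟨(a, b), ⟨ha, hb⟩, rfl⟩
    simp only [mem_iUnion] at e1
    obtain ⟨t, ht, e2⟩ := e1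
    refine e2 ?_
    rintro rfl
    exact hn ht
  -- a common bound for the pole orders
  choose nf hnf using hf
  choose ng hng using hg
  set e : ℕ := (F.sup nf) + (F.sup ng) with he
  have hfe : ∀ s ∈ F, AnalyticAt ℂ (fun z => (z - s) ^ e * f z) s := by
    intro s hs
    have e1 : nf s ≤ e := (Finset.le_sup (f := nf) hs).trans (Nat.le_add_right _ _)
    have e2 : (fun z => (z - s) ^ e * f z) =
        fun z => (z - s) ^ (e - nf s) * ((z - s) ^ nf s • f z) := by
      funext z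
      rw [smul_eq_mul, ← mul_assoc, ← pow_add, Nat.sub_add_cancel e1]
    rw [e2]
    exact AnalyticAt.mul (by fun_prop) (hnf s)
  have hge : ∀ s ∈ F, AnalyticAt ℂ (fun z => (z - s) ^ e * g z) s := by
    intro s hs
    have e1 : ng s ≤ e := (Finset.le_sup (f := ng) hs).trans (Nat.le_add_left _ _)
    have e2 : (fun z => (z - s) ^ e * g z) =
        fun z => (z - s) ^ (e - ng s) * ((z - s) ^ ng s • g z) := by
      funext z
      rw [smul_eq_mul, ← mul_assoc, ← pow_add, Nat.sub_add_cancel e1]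
    rw [e2]
    exact AnalyticAt.mul (by fun_prop) (hng s)
  -- the exponents
  set r : ℕ := F.card with hr
  set m : ℕ := 2 * e * r + 1 with hm
  set M : ℕ := 2 * m * e with hM
  have hmon : ∀ s ∈ F, ∀ q : Fin (m + 1) × Fin (m + 1),
      AnalyticAt ℂ (fun z => (z - s) ^ M * (f z ^ (q.1 : ℕ) * g z ^ (q.2 : ℕ))) s := by
    intro s hs q
    have e1 : (q.1 : ℕ) + (q.2 : ℕ) ≤ 2 * m := by
      have := q.1.2
      have := q.2.2
      omega
    have e2 : ((q.1 : ℕ) + (q.2 : ℕ)) * e ≤ M := Nat.mul_le_mul_right e e1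
    have e3 : (fun z => (z - s) ^ M * (f z ^ (q.1 : ℕ) * g z ^ (q.2 : ℕ))) =
        fun z => (z - s) ^ (M - ((q.1 : ℕ) + (q.2 : ℕ)) * e) *
          (((z - s) ^ e * f z) ^ (q.1 : ℕ) * ((z - s) ^ e * g z) ^ (q.2 : ℕ)) := by
      funext z
      rw [mul_pow, mul_pow, ← pow_mul, ← pow_mul]
      have e4 : (z - s) ^ M = (z - s) ^ (M - ((q.1 : ℕ) + (q.2 : ℕ)) * e) *
          ((z - s) ^ (e * (q.1 : ℕ)) * (z - s) ^ (e * (q.2 : ℕ))) := by
        rw [← pow_add, ← pow_add]
        congr 1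
        have e5 : e * (q.1 : ℕ) + e * (q.2 : ℕ) = ((q.1 : ℕ) + (q.2 : ℕ)) * e := by ring
        rw [e5, Nat.sub_add_cancel e2]
      rw [e4]
      ring
    rw [e3]
    exact AnalyticAt.mul (by fun_prop) (((hfe s hs).pow _).mul ((hge s hs).pow _))
  have htay : ∀ (s : F) (q : Fin (m + 1) × Fin (m + 1)), ∃ (a : Fin M → ℂ) (R : ℂ → ℂ),
      AnalyticAt ℂ R s ∧ ∀ z, (z - s) ^ M * (f z ^ (q.1 : ℕ) * g z ^ (q.2 : ℕ)) =
        ∑ n, a n * (z - s) ^ (n : ℕ) + (z - s) ^ M * R z := fun s q =>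
    taylor_rem M (hmon s.1 s.2 q)
  choose A R hRa hRe using htay
  -- a good point
  obtain ⟨t₀, ht₀⟩ := (hgood 0).exists
  -- the linear map
  let T : (Fin (m + 1) × Fin (m + 1) → ℂ) →ₗ[ℂ] (F × Fin M → ℂ) × ℂ :=
    LinearMap.prod
      (LinearMap.pi fun p => ∑ q, (A p.1 q p.2) • LinearMap.proj q)
      (∑ q : Fin (m + 1) × Fin (m + 1), (f t₀ ^ (q.1 : ℕ) * g t₀ ^ (q.2 : ℕ)) •
        LinearMap.proj q)
  have hker : LinearMap.ker T ≠ ⊥ := by
    refine LinearMap.ker_ne_bot_of_finrank_lt ?_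
    rw [Module.finrank_prod, Module.finrank_fintype_fun_eq_card,
      Module.finrank_fintype_fun_eq_card, Module.finrank_self, Fintype.card_prod,
      Fintype.card_prod, Fintype.card_fin, Fintype.card_fin, Fintype.card_coe, ← hr, hM, hm]
    nlinarith [Nat.zero_le (e * r)]
  obtain ⟨c, hcT, hc0⟩ := (Submodule.ne_bot_iff _).1 hker
  rw [LinearMap.mem_ker] at hcT
  have hT1 : ∀ (s : F) (n : Fin M), ∑ q, A s q n * c q = 0 := by
    intro s n
    have e1 := congrFun (congrArg Prod.fst hcT) (s, n)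
    simpa [T] using e1
  have hT2 : ∑ q : Fin (m + 1) × Fin (m + 1), f t₀ ^ (q.1 : ℕ) * g t₀ ^ (q.2 : ℕ) * c q = 0 := by
    have e1 := congrArg Prod.snd hcT
    simpa [T] using e1
  set h : ℂ → ℂ := fun z => ∑ q : Fin (m + 1) × Fin (m + 1),
    f z ^ (q.1 : ℕ) * g z ^ (q.2 : ℕ) * c q with hh
  have hhan : ∀ t, AnalyticAt ℂ f t → AnalyticAt ℂ g t → AnalyticAt ℂ h t := by
    intro t e1 e2
    rw [hh]
    refine Finset.analyticAt_fun_sum _ fun q _ => ?_
    exact ((e1.pow _).mul (e2.pow _)).mul analyticAt_const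
  have hper : ∀ l, Per f l → Per g l → Per h l := by
    intro l e1 e2 t
    filter_upwards [e1 t, e2 t] with s h1 h2
    simp only [hh]
    rw [h1, h2]
  have hhreg : ∀ a ∈ Icc (0 : ℝ) 1, ∀ b ∈ Icc (0 : ℝ) 1,
      ∃ R : ℂ → ℂ, AnalyticAt ℂ R (a + b * w₀) ∧ h =ᶠ[𝓝[≠] (a + b * w₀)] R := by
    intro a ha b hb
    by_cases hin : ((a : ℂ) + b * w₀) ∈ F
    · set s : F := ⟨(a : ℂ) + b * w₀, hin⟩ with hs
      have hsv : (s : ℂ) = a + b * w₀ := rfl
      refine ⟨fun z => ∑ q, R s q z * c q, ?_, ?_⟩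
      · rw [← hsv]
        refine Finset.analyticAt_fun_sum _ fun q _ => ?_
        exact (hRa s q).mul analyticAt_const
      · rw [← hsv]
        filter_upwards [self_mem_nhdsWithin] with z hz
        have hz' : z - s ≠ 0 := sub_ne_zero.2 hz
        have hzM : (z - s) ^ M ≠ 0 := pow_ne_zero _ hz'
        apply mul_left_cancel₀ hzM
        have e1 : (z - s) ^ M * h z = ∑ q : Fin (m + 1) × Fin (m + 1),
            ((z - s) ^ M * (f z ^ (q.1 : ℕ) * g z ^ (q.2 : ℕ))) * c q := by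
          simp only [hh]
          rw [Finset.mul_sum]
          refine Finset.sum_congr rfl fun q _ => ?_
          ring
        rw [e1]
        have e2 : ∀ q : Fin (m + 1) × Fin (m + 1),
            ((z - s) ^ M * (f z ^ (q.1 : ℕ) * g z ^ (q.2 : ℕ))) * c q =
            ∑ n : Fin M, (z - s) ^ (n : ℕ) * (A s q n * c q) + (z - s) ^ M * (R s q z * c q) := by
          intro q
          rw [hRe s q z, add_mul, Finset.sum_mul]
          congr 1
          · refine Finset.sum_congr rfl fun n _ => ?_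
            ring
          · ring
        rw [Finset.sum_congr rfl fun q _ => e2 q, Finset.sum_add_distrib, Finset.sum_comm]
        have e3 : ∑ n : Fin M, ∑ q : Fin (m + 1) × Fin (m + 1),
            (z - s) ^ (n : ℕ) * (A s q n * c q) = 0 := by
          refine Finset.sum_eq_zero fun n _ => ?_
          rw [← Finset.mul_sum, hT1 s n, mul_zero]
        rw [e3, zero_add, ← Finset.mul_sum]
    · obtain ⟨e1, e2⟩ := hFgood a ha b hb hin
      exact ⟨h, hhan _ e1 e2, Filter.EventuallyEq.rfl⟩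
  have hzero := liouville_per hw (hper 1 f1 g1) (hper w₀ f2 g2) hhreg
    (hhan t₀ ht₀.1 ht₀.2) hT2
  -- the polynomial
  refine ⟨∑ q : Fin (m + 1) × Fin (m + 1),
    Polynomial.monomial (q.2 : ℕ) (Polynomial.monomial (q.1 : ℕ) (c q)), ?_, ?_⟩
  · intro hP
    apply hc0
    funext q
    have e1 := congrArg (fun P : ℂ[X][X] => (P.coeff (q.2 : ℕ)).coeff (q.1 : ℕ)) hP
    simp only [Polynomial.finsetSum_coeff, Polynomial.coeff_monomial, Polynomial.coeff_zero] at e1
    have e2 : ∀ q' : Fin (m + 1) × Fin (m + 1),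
        (if (q'.2 : ℕ) = (q.2 : ℕ) then Polynomial.monomial (q'.1 : ℕ) (c q') else 0).coeff
          (q.1 : ℕ) = if q' = q then c q' else 0 := by
      intro q'
      by_cases h1 : (q'.2 : ℕ) = (q.2 : ℕ)
      · rw [if_pos h1, Polynomial.coeff_monomial]
        by_cases h2 : (q'.1 : ℕ) = (q.1 : ℕ)
        · rw [if_pos h2, if_pos (Prod.ext (Fin.ext h2) (Fin.ext h1))]
        · rw [if_neg h2, if_neg]
          intro h3
          exact h2 (by rw [h3])
      · rw [if_neg h1, Polynomial.coeff_zero, if_neg]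
        intro h3
        exact h1 (by rw [h3])
    rw [Finset.sum_congr rfl fun q' _ => e2 q', Finset.sum_ite_eq' Finset.univ q c,
      if_pos (Finset.mem_univ q)] at e1
    exact e1
  · intro t
    filter_upwards [hzero t] with s hs
    rw [Polynomial.evalEval_finsetSum, ← hs]
    refine Finset.sum_congr rfl fun q _ => ?_
    rw [Polynomial.evalEval, Polynomial.eval_monomial, Polynomial.eval_mul, Polynomial.eval_pow,
      Polynomial.eval_C, Polynomial.eval_monomial]
    ring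

end Pool.Agent.MP_ae5b4e_an_FV
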