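import Pool.Agent.Lib.MP_ae5b4e_an_NBT.ConD
import Pool.Agent.Lib.MP_ae5b4e_an_LAT.NDMain
import Pool.Agent.Lib.MP_ae5b4e_an_MERO.GoodOfFamily
import Pool.Agent.Lib.MP_ae5b4e_an_SVC.Link
import Pool.Agent.Lib.MP_ae5b4e_an_FV.AlgE
import Pool.Agent.Lib.MP_ae5b4e_an_SVC.Strip

/-!
# MP_ae5b4e_an, project FV: algebraic kernels are rational
-/

noncomputable section

namespace Pool.Agent.MP_ae5b4e_an_FV

open Complex Set Filter Topology Metric
open scoped Polynomial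
open Polynomial (evalEval)
open Pool.Agent.MP_ae5b4e_an_NBT
open Pool.Agent.MP_ae5b4e_an_SVC

private theorem af_shift {f : ℂ → ℂ} {a t : ℂ} (h : (fun s => f (s + a)) =ᶠ[𝓝[≠] t] f) :
    (fun s => deriv f (s + a)) =ᶠ[𝓝[≠] t] deriv f := by
  have h1 : ∀ᶠ y in 𝓝[≠] t, ∀ᶠ s in 𝓝[≠] y, f (s + a) = f s := by
    have h2 : ∀ᶠ y in 𝓝[≠] t, ∀ᶠ s in 𝓝 y, f (s + a) = f s := by
      have h3 := eventually_eventually_nhdsWithin.2 h
      filter_upwards [h3, self_mem_nhdsWithin] with y hy hyt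
      rwa [isOpen_compl_singleton.nhdsWithin_eq hyt] at hy
    exact h2.mono fun y hy => hy.filter_mono nhdsWithin_le_nhds
  have h2 : ∀ᶠ y in 𝓝[≠] t, ∀ᶠ s in 𝓝 y, f (s + a) = f s := by
    have h3 := eventually_eventually_nhdsWithin.2 h
    filter_upwards [h3, self_mem_nhdsWithin] with y hy hyt
    rwa [isOpen_compl_singleton.nhdsWithin_eq hyt] at hy
  filter_upwards [h2] with y hy
  rw [← deriv_comp_add_const]
  exact Filter.EventuallyEq.deriv_eq hy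

private theorem af_poly (P : ℂ[X][X]) {f g : ℂ → ℂ} {t : ℂ} (hf : ContinuousAt f t)
    (hg : ContinuousAt g t) (h : ∀ᶠ s in 𝓝[≠] t, evalEval (f s) (g s) P = 0) :
    ∀ᶠ s in 𝓝 t, evalEval (f s) (g s) P = 0 := by
  have h1 : ContinuousAt (fun s => evalEval (f s) (g s) P) t := by
    have h2 := (Pool.Agent.MP_ae5b4e_an_ND.analyticAt_evalEval P (f t, g t)).continuousAt
    exact ContinuousAt.comp (g := fun p : ℂ × ℂ => evalEval p.1 p.2 P)
      (f := fun s => (f s, g s)) h2 (hf.prodMk hg)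
  have h2 : Tendsto (fun s => evalEval (f s) (g s) P) (𝓝[≠] t) (𝓝 (evalEval (f t) (g t) P)) :=
    h1.tendsto.mono_left nhdsWithin_le_nhds
  have h3 : Tendsto (fun s => evalEval (f s) (g s) P) (𝓝[≠] t) (𝓝 0) :=
    (tendsto_congr' h).2 tendsto_const_nhds
  have h4 : evalEval (f t) (g t) P = 0 := tendsto_nhds_unique h2 h3
  rw [eventually_nhdsWithin_iff] at h
  filter_upwards [h] with s hs
  by_cases hst : s = t
  · rw [hst]
    exact h4
  · exact hs hst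

/-- the kernel of an elliptic curve is algebraic -/
theorem alg_of_ell {f : ℂ → ℂ} (H : ∀ h > 0, Crv f h) {w₀ : ℂ} (hw : w₀.im ≠ 0)
    (hs : ∀ s : ℂ, (fun w => f (w + w₀)) =ᶠ[𝓝[≠] s] f) {t : ℂ} (ht : Rg f t) :
    ∃ P : ℂ[X][X], P ≠ 0 ∧
      ∀ᶠ s in 𝓝 t, evalEval (f s) (-(deriv (deriv f) s) / (deriv f s) ^ 2) P = 0 := by
  have hst : ∀ t : ℂ, t ∈ St (-(|t.im| + 1)) (|t.im| + 1) := by
    intro t
    rw [mem_St]
    constructor
    · linarith [neg_abs_le t.im]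
    · linarith [le_abs_self t.im]
  have hpos : ∀ t : ℂ, 0 < |t.im| + 1 := fun t => by positivity
  have hm : ∀ t, MeromorphicAt f t := fun t => (H _ (hpos t)).mer t (hst t)
  have hm1 : ∀ t, MeromorphicAt (deriv f) t := fun t => (hm t).deriv
  have hm2 : ∀ t, MeromorphicAt (deriv (deriv f)) t := fun t => (hm1 t).deriv
  have hg : ∀ t, MeromorphicAt (fun s => -(deriv (deriv f) s) / (deriv f s) ^ 2) t :=
    fun t => (hm2 t).neg.div ((hm1 t).pow 2)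
  have f1 : ∀ t, (fun s => f (s + 1)) =ᶠ[𝓝[≠] t] f := by
    intro t
    have := (H _ (hpos t)).per' 1 (hst t)
    simpa using this
  have hgs : ∀ a : ℂ, (∀ t, (fun s => f (s + a)) =ᶠ[𝓝[≠] t] f) → ∀ t,
      (fun s => -(deriv (deriv f) (s + a)) / (deriv f (s + a)) ^ 2) =ᶠ[𝓝[≠] t]
        fun s => -(deriv (deriv f) s) / (deriv f s) ^ 2 := by
    intro a ha t
    have e1 := af_shift (ha t)
    have e2 := af_shift e1
    filter_upwards [e1, e2] with s h1 h2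
    rw [h1, h2]
  obtain ⟨P, hP, h⟩ := ell_dep (g := fun s => -(deriv (deriv f) s) / (deriv f s) ^ 2) hw hm hg f1 hs
    (hgs 1 f1) (hgs w₀ hs)
  refine ⟨P, hP, af_poly P ht.1.continuousAt ?_ (h t)⟩
  exact (ht.1.deriv.deriv.continuousAt.neg).div (ht.1.deriv.continuousAt.pow 2)
    (pow_ne_zero 2 ht.2)

/-- an algebraic kernel of a family is rational -/
theorem rational_con {k f : ℂ → ℂ} {F : ℂ × ℂ → ℂ} {c : ℝ} (hC : Con k F c)
    (hf : f =ᶠ[𝓝 (0:ℂ)] fun t => F (t, 0)) {P : ℂ[X][X]} (hP : P ≠ 0)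
    (h : ∀ᶠ s in 𝓝 (0:ℂ), evalEval (f s) (-(deriv (deriv f) s) / (deriv f s) ^ 2) P = 0) :
    ∃ A B : ℂ[X], B ≠ 0 ∧ ∀ᶠ x in 𝓝 (F (0, 0)), k x * B.eval x = A.eval x := by
  have hc0 : 0 < c := hC.pos
  obtain ⟨hk, hR, hO⟩ := ode_of_con hC (t := 0) (by simpa using hc0)
  -- transfer to the family
  have e0 := hf.eventuallyEq_nhds
  have e1 : deriv f =ᶠ[𝓝 (0:ℂ)] deriv fun s => F (s, 0) := hf.deriv
  have e2 : deriv (deriv f) =ᶠ[𝓝 (0:ℂ)] deriv (deriv fun s => F (s, 0)) := e1.deriv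
  have h1 : ∀ᶠ s in 𝓝[≠] (0:ℂ), evalEval (F (s, 0)) (k (F (s, 0))) P = 0 := by
    filter_upwards [hO, h.filter_mono nhdsWithin_le_nhds, hf.filter_mono nhdsWithin_le_nhds,
      e1.filter_mono nhdsWithin_le_nhds, e2.filter_mono nhdsWithin_le_nhds] with s g1 g2 g3 g4 g5
    rw [g1, ← g3, ← g4, ← g5]
    exact g2
  have hφ : ContinuousAt (fun s : ℂ => F (s, 0)) 0 := hR.1.continuousAt
  have hkφ : ContinuousAt (fun s : ℂ => k (F (s, 0))) 0 :=
    ContinuousAt.comp (g := k) (f := fun s : ℂ => F (s, 0)) hk.continuousAt hφ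
  have h2 := af_poly P hφ hkφ h1
  have h3 : map (fun s : ℂ => F (s, 0)) (𝓝 0) = 𝓝 (F (0, 0)) := by
    have := hR.1.hasStrictDerivAt.map_nhds_eq hR.2
    exact this
  have h4 : ∀ᶠ x in 𝓝 (F (0, 0)), evalEval x (k x) P = 0 := by
    rw [← h3, eventually_map]
    exact h2
  have hmem : ((0, 0) : ℂ × ℂ) ∈ St (-c) c ×ˢ ball (0:ℂ) c := by
    refine ⟨?_, mem_ball_self hc0⟩
    rw [mem_St]
    simp [hc0]
  have hopen : IsOpen (St (-c) c ×ˢ ball (0:ℂ) c) := (isOpen_St _ _).prod isOpen_ball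
  have hfe : ∀ᶠ p in 𝓝 ((0, 0) : ℂ × ℂ), p.2 ≠ 0 →
      (F (p.1 + p.2, p.2) - F p)⁻¹ + (F (p.1 - p.2, p.2) - F p)⁻¹ = k (F p) := by
    have g1 : ∀ᶠ p in 𝓝 ((0, 0) : ℂ × ℂ), p ∈ St (-c) c ×ˢ ball (0:ℂ) c := hopen.mem_nhds hmem
    have g2 : ∀ᶠ p in 𝓝 ((0, 0) : ℂ × ℂ), p.1 + p.2 ∈ St (-c) c := by
      have hcont : ContinuousAt (fun p : ℂ × ℂ => p.1 + p.2) (0, 0) := by fun_prop
      refine hcont.eventually_mem ((isOpen_St _ _).mem_nhds ?_)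
      simpa using hmem.1
    have g3 : ∀ᶠ p in 𝓝 ((0, 0) : ℂ × ℂ), p.1 - p.2 ∈ St (-c) c := by
      have hcont : ContinuousAt (fun p : ℂ × ℂ => p.1 - p.2) (0, 0) := by fun_prop
      refine hcont.eventually_mem ((isOpen_St _ _).mem_nhds ?_)
      simpa using hmem.1
    filter_upwards [g1, g2, g3] with p k1 k2 k3 k4
    exact hC.fe p k1 k4 k2 k3
  exact Pool.Agent.MP_ae5b4e_an_ND.nd_main
    (Pool.Agent.MP_ae5b4e_an_MERO.good_of_family (hC.an _ hmem) hR.2 hk hfe) hP h4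

end Pool.Agent.MP_ae5b4e_an_FV
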