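import Pool.Agent.Lib.MP_ae5b4e_an_SVC.Strip
import Pool.Agent.Lib.MP_ae5b4e_an_SVC.EndL
import Pool.Agent.Lib.MP_ae5b4e_an_SVC.Range
import Pool.Agent.Lib.MP_ae5b4e_an_MERO.MeroRat
import Pool.Agent.Lib.MP_ae5b4e_an_GENC.AlgGerm
import Pool.Agent.Lib.MP_ae5b4e_an_GENC.Transfer
import Pool.Agent.Lib.MP_ae5b4e_an_GEN.Complexify

/-!
# MP_ae5b4e_an, project FV: finitely valent curves in the plane are algebraic
-/

noncomputable section

namespace Pool.Agent.MP_ae5b4e_an_FV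

open Complex Set Filter Topology Metric
open scoped Polynomial
open Polynomial (evalEval)
open Pool.Agent.MP_ae5b4e_an_SVC

/-- the inverse of `exp (2 π i t)` -/
private def lg (w : ℂ) : ℂ := log w / (2 * Real.pi * I)

private lemma tpi : (2 * Real.pi * I : ℂ) ≠ 0 := two_pi_I_ne_zero

private lemma exp_lg {w : ℂ} (hw : w ≠ 0) : exp (2 * Real.pi * I * lg w) = w := by
  unfold lg
  rw [mul_div_cancel₀ _ tpi, exp_log hw]

private lemma norm_E (t : ℂ) : ‖exp (2 * Real.pi * I * t)‖ = Real.exp (-(2 * Real.pi * t.im)) := by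
  rw [norm_exp]
  congr 1
  simp

/-- the imaginary part is determined by the norm -/
private lemma im_of_E {t w : ℂ} (h : exp (2 * Real.pi * I * t) = w) :
    Real.exp (-(2 * Real.pi * t.im)) = ‖w‖ := by
  rw [← h, norm_E]

private lemma lt_im {t w : ℂ} (h : exp (2 * Real.pi * I * t) = w) {Y : ℝ}
    (hw : ‖w‖ < Real.exp (-(2 * Real.pi * Y))) : Y < t.im := by
  rw [← im_of_E h, Real.exp_lt_exp] at hw
  have h1 := Real.two_pi_pos
  have h2 : 2 * Real.pi * Y < 2 * Real.pi * t.im := by linarith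
  exact lt_of_mul_lt_mul_left h2 h1.le

private lemma norm_lt {t : ℂ} {Y : ℝ} (h : Y < t.im) :
    ‖exp (2 * Real.pi * I * t)‖ < Real.exp (-(2 * Real.pi * Y)) := by
  rw [norm_E, Real.exp_lt_exp]
  have h1 := Real.two_pi_pos
  have := mul_lt_mul_of_pos_left h h1
  linarith

private lemma isOpen_up (y : ℝ) : IsOpen {t : ℂ | y < t.im} :=
  isOpen_lt continuous_const continuous_im

/-- iterated periodicity -/
private lemma perZ {f : ℂ → ℂ} {y₀ : ℝ}
    (hper : ∀ t : ℂ, y₀ < t.im → (fun s => f (s + 1)) =ᶠ[𝓝[≠] t] f) (n : ℤ) :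
    ∀ t : ℂ, y₀ < t.im → ∀ᶠ s in 𝓝[≠] t, f (s + n) = f s := by
  have htr : ∀ (c t : ℂ), Tendsto (fun s => s + c) (𝓝[≠] t) (𝓝[≠] (t + c)) := by
    intro c t
    refine tendsto_nhdsWithin_iff.2 ⟨?_, ?_⟩
    · have h1 : Continuous fun s : ℂ => s + c := by fun_prop
      exact (h1.tendsto t).mono_left nhdsWithin_le_nhds
    · filter_upwards [self_mem_nhdsWithin] with s hs h
      exact hs (by simpa using h)
  have hnat : ∀ (n : ℕ) (t : ℂ), y₀ < t.im → ∀ᶠ s in 𝓝[≠] t, f (s + n) = f s := by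
    intro n
    induction n with
    | zero => intro t _; simp
    | succ n ih =>
      intro t ht
      have h1 := (htr n t).eventually (hper (t + n) (by simpa using ht))
      filter_upwards [h1, ih t ht] with s hs hs'
      have h2 : s + ((n + 1 : ℕ) : ℂ) = s + n + 1 := by
        push_cast
        ring
      rw [h2, ← hs']
      exact hs
  intro t ht
  obtain ⟨m, rfl | rfl⟩ := n.eq_nat_or_neg
  · exact_mod_cast hnat m t ht
  · have h1 := (htr (-m) t).eventually (hnat m (t + -m) (by simpa using ht))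
    filter_upwards [h1] with s hs
    have h2 : s + -(m:ℂ) + m = s := by ring
    rw [h2] at hs
    rw [hs]
    push_cast
    rfl

/-- `f ∘ lg ∘ exp = f` -/
private lemma lgE {f : ℂ → ℂ} {y₀ : ℝ}
    (hper : ∀ t : ℂ, y₀ < t.im → (fun s => f (s + 1)) =ᶠ[𝓝[≠] t] f) {t : ℂ} (ht : y₀ < t.im) :
    ∀ᶠ s in 𝓝[≠] t, f (lg (exp (2 * Real.pi * I * s))) = f s := by
  obtain ⟨M, hM⟩ := exists_nat_gt (‖t‖ + 2)
  have h1 : ∀ᶠ s in 𝓝[≠] t, ∀ n ∈ Finset.Icc (-(M:ℤ)) M, f (s + n) = f s :=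
    (Finset.eventually_all _).2 fun n _ => perZ hper n t ht
  have h2 : ∀ᶠ s in 𝓝[≠] t, ‖s‖ < ‖t‖ + 1 :=
    (continuous_norm.continuousAt.eventually_lt continuousAt_const (by linarith)).filter_mono
      nhdsWithin_le_nhds
  filter_upwards [h1, h2] with s hs hs'
  have h3 : exp (2 * Real.pi * I * lg (exp (2 * Real.pi * I * s))) =
      exp (2 * Real.pi * I * s) := exp_lg (exp_ne_zero _)
  obtain ⟨n, hn⟩ := exp_eq_exp_iff_exists_int.1 h3
  have h4 : lg (exp (2 * Real.pi * I * s)) = s + n := by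
    have h5 : (2 * Real.pi * I : ℂ) * lg (exp (2 * Real.pi * I * s)) =
        2 * Real.pi * I * (s + n) := by
      rw [hn]
      ring
    exact mul_left_cancel₀ tpi h5
  rw [h4]
  apply hs
  -- the bound for n
  have h6 : (lg (exp (2 * Real.pi * I * s))).re =
      arg (exp (2 * Real.pi * I * s)) / (2 * Real.pi) := by
    have h7 : lg (exp (2 * Real.pi * I * s)) =
        ((1 / (2 * Real.pi) : ℝ) : ℂ) * (-I * log (exp (2 * Real.pi * I * s))) := by
      unfold lg
      have := Real.pi_pos.ne'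
      have h8 : (Real.pi : ℂ) ≠ 0 := by exact_mod_cast this
      push_cast
      field_simp
      rw [I_sq]
      ring
    rw [h7, re_ofReal_mul]
    simp [log_im]
    ring
  have h7 : |(lg (exp (2 * Real.pi * I * s))).re| ≤ 1 := by
    rw [h6, abs_div, abs_of_pos Real.two_pi_pos, div_le_one Real.two_pi_pos]
    have := abs_arg_le_pi (exp (2 * Real.pi * I * s))
    linarith [Real.pi_pos]
  have h8 : |(n:ℝ)| < M := by
    have h9 : (n:ℝ) = (lg (exp (2 * Real.pi * I * s))).re - s.re := by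
      rw [h4]
      simp
    rw [h9]
    have := abs_re_le_norm s
    have := abs_sub (lg (exp (2 * Real.pi * I * s))).re s.re
    linarith
  rw [abs_lt] at h8
  rw [Finset.mem_Icc]
  constructor
  · have : -(M:ℝ) < n := h8.1
    have : -(M:ℤ) < n := by exact_mod_cast this
    exact this.le
  · have : n < (M:ℤ) := by exact_mod_cast h8.2
    exact this.le

/-- the exponential maps punctured neighbourhoods to punctured neighbourhoods -/
private lemma tendsto_E (t : ℂ) : Tendsto (fun s => exp (2 * Real.pi * I * s)) (𝓝[≠] t)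
    (𝓝[≠] exp (2 * Real.pi * I * t)) := by
  refine tendsto_nhdsWithin_iff.2 ⟨?_, ?_⟩
  · have h1 : Continuous fun s : ℂ => exp (2 * Real.pi * I * s) := by fun_prop
    exact (h1.tendsto t).mono_left nhdsWithin_le_nhds
  · have h1 : HasDerivAt (fun s : ℂ => exp (2 * Real.pi * I * s))
        (exp (2 * Real.pi * I * t) * (2 * Real.pi * I * 1)) t :=
      ((hasDerivAt_id t).const_mul (2 * Real.pi * I)).cexp
    exact h1.eventually_ne (mul_ne_zero (exp_ne_zero _) (by rw [mul_one]; exact tpi))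

/-- the function `f ∘ lg` is meromorphic -/
private lemma mero_lg {f : ℂ → ℂ} {y₀ : ℝ} (hf : MeromorphicOn f {t | y₀ < t.im})
    (hper : ∀ t : ℂ, y₀ < t.im → (fun s => f (s + 1)) =ᶠ[𝓝[≠] t] f) {w₀ : ℂ} (h0 : w₀ ≠ 0)
    (hw : ‖w₀‖ < Real.exp (-(2 * Real.pi * y₀))) : MeromorphicAt (fun w => f (lg w)) w₀ := by
  set t₀ := lg w₀ with ht₀
  have hE0 : exp (2 * Real.pi * I * t₀) = w₀ := exp_lg h0
  have him : y₀ < t₀.im := lt_im hE0 hw
  set l : ℂ → ℂ := fun w => t₀ + log (w / w₀) / (2 * Real.pi * I) with hl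
  have hla : AnalyticAt ℂ l w₀ := by
    have h1 : w₀ / w₀ ∈ slitPlane := by
      rw [div_self h0]
      exact one_mem_slitPlane
    have h2 : AnalyticAt ℂ (fun w : ℂ => w / w₀) w₀ := by fun_prop
    exact analyticAt_const.fun_add ((AnalyticAt.clog h2 h1).fun_div analyticAt_const tpi)
  have hl0 : l w₀ = t₀ := by
    simp [hl, div_self h0]
  have hlE : ∀ w : ℂ, w ≠ 0 → exp (2 * Real.pi * I * l w) = w := by
    intro w hw0
    have h1 : 2 * Real.pi * I * l w = 2 * Real.pi * I * t₀ + log (w / w₀) := by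
      simp only [hl]
      rw [mul_add, mul_div_cancel₀ _ tpi]
    rw [h1, exp_add, hE0, exp_log (div_ne_zero hw0 h0)]
    field_simp
  have h1 : MeromorphicAt (f ∘ l) w₀ := by
    apply MeromorphicAt.comp_analyticAt _ hla
    rw [hl0]
    exact hf t₀ him
  refine h1.congr ?_
  have h2 : Tendsto l (𝓝[≠] w₀) (𝓝[≠] t₀) := by
    refine tendsto_nhdsWithin_iff.2 ⟨?_, ?_⟩
    · have h3 := hla.continuousAt.tendsto
      rw [hl0] at h3
      exact h3.mono_left nhdsWithin_le_nhds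
    · have h4 : ∀ᶠ w in 𝓝[≠] w₀, w ≠ 0 :=
        (continuousAt_id.eventually_ne h0).filter_mono nhdsWithin_le_nhds
      filter_upwards [self_mem_nhdsWithin, h4] with w hw1 hw2 h5
      apply hw1
      have h6 := hlE w hw2
      rw [show l w = t₀ from h5, hE0] at h6
      exact h6.symm
  have h4 : ∀ᶠ w in 𝓝[≠] w₀, w ≠ 0 :=
    (continuousAt_id.eventually_ne h0).filter_mono nhdsWithin_le_nhds
  filter_upwards [h2.eventually (lgE hper him), h4] with w hw1 hw2
  rw [hlE w hw2] at hw1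
  exact hw1.symm


variable {f : ℂ → ℂ}

/-- the composition with the inverse of the exponential function -/
private def ph (f : ℂ → ℂ) (w : ℂ) : ℂ := f (lg w)

private lemma ph_mer (hm : ∀ t, MeromorphicAt f t)
    (hper : ∀ t : ℂ, (fun s => f (s + 1)) =ᶠ[𝓝[≠] t] f) {w₀ : ℂ} (h0 : w₀ ≠ 0) :
    MeromorphicAt (ph f) w₀ := by
  obtain ⟨n, hn⟩ := exists_nat_gt ‖w₀‖
  have h1 : (n : ℝ) ≤ Real.exp (-(2 * Real.pi * (-(n:ℝ)))) := by
    have h2 := Real.add_one_le_exp (-(2 * Real.pi * (-(n:ℝ))))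
    have h3 := Real.pi_gt_three
    have h4 : (0:ℝ) ≤ n := Nat.cast_nonneg n
    nlinarith
  exact mero_lg (y₀ := -(n:ℝ)) (fun t _ => hm t) (fun t _ => hper t) h0 (hn.trans_le h1)

private lemma ph_E (hper : ∀ t : ℂ, (fun s => f (s + 1)) =ᶠ[𝓝[≠] t] f) (t : ℂ) :
    ∀ᶠ s in 𝓝[≠] t, ph f (exp (2 * Real.pi * I * s)) = f s :=
  lgE (y₀ := t.im - 1) (fun t _ => hper t) (by linarith)

/-- near `w₀` the inverse of the exponential function is a local inverse -/
private lemma pull {w₀ : ℂ} (h0 : w₀ ≠ 0) {p q : ℂ → ℂ}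
    (h : ∀ᶠ s in 𝓝[≠] (lg w₀), p (exp (2 * Real.pi * I * s)) = q (exp (2 * Real.pi * I * s))) :
    p =ᶠ[𝓝[≠] w₀] q := by
  have hE0 : exp (2 * Real.pi * I * lg w₀) = w₀ := exp_lg h0
  set l : ℂ → ℂ := fun w => lg w₀ + log (w / w₀) / (2 * Real.pi * I) with hl
  have hla : AnalyticAt ℂ l w₀ := by
    have h1 : w₀ / w₀ ∈ slitPlane := by
      rw [div_self h0]
      exact one_mem_slitPlane
    have h2 : AnalyticAt ℂ (fun w : ℂ => w / w₀) w₀ := by fun_prop
    exact analyticAt_const.fun_add ((AnalyticAt.clog h2 h1).fun_div analyticAt_const tpi)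
  have hl0 : l w₀ = lg w₀ := by
    simp [hl, div_self h0]
  have hlE : ∀ w : ℂ, w ≠ 0 → exp (2 * Real.pi * I * l w) = w := by
    intro w hw0
    have h1 : 2 * Real.pi * I * l w = 2 * Real.pi * I * lg w₀ + log (w / w₀) := by
      simp only [hl]
      rw [mul_add, mul_div_cancel₀ _ tpi]
    rw [h1, exp_add, hE0, exp_log (div_ne_zero hw0 h0)]
    field_simp
  have h4 : ∀ᶠ w in 𝓝[≠] w₀, w ≠ 0 :=
    (continuousAt_id.eventually_ne h0).filter_mono nhdsWithin_le_nhds
  have h2 : Tendsto l (𝓝[≠] w₀) (𝓝[≠] (lg w₀)) := by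
    refine tendsto_nhdsWithin_iff.2 ⟨?_, ?_⟩
    · have h3 := hla.continuousAt.tendsto
      rw [hl0] at h3
      exact h3.mono_left nhdsWithin_le_nhds
    · filter_upwards [self_mem_nhdsWithin, h4] with w hw1 hw2 h5
      apply hw1
      have h6 := hlE w hw2
      rw [show l w = lg w₀ from h5, hE0] at h6
      exact h6.symm
  filter_upwards [h2.eventually h, h4] with w hw1 hw2
  rw [hlE w hw2] at hw1
  exact hw1

/-- the normal form -/
private def kk (f : ℂ → ℂ) : ℂ → ℂ := toMeromorphicNFOn (ph f) {0}ᶜ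

private lemma kk_eq (hm : ∀ t, MeromorphicAt f t)
    (hper : ∀ t : ℂ, (fun s => f (s + 1)) =ᶠ[𝓝[≠] t] f) {w₀ : ℂ} (h0 : w₀ ≠ 0) :
    ph f =ᶠ[𝓝[≠] w₀] kk f := by
  have hmi : MeromorphicOn (ph f) {0}ᶜ := fun w hw => ph_mer hm hper hw
  exact (hmi.toMeromorphicNFOn_eq_self_on_nhdsNE h0).symm

private lemma kk_nf {w₀ : ℂ} (h0 : w₀ ≠ 0) : MeromorphicNFAt (kk f) w₀ :=
  meromorphicNFOn_toMeromorphicNFOn (ph f) {0}ᶜ h0

private lemma kk_an {w₀ : ℂ} (h0 : w₀ ≠ 0) {g : ℂ → ℂ} (hg : AnalyticAt ℂ g w₀)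
    (h : kk f =ᶠ[𝓝[≠] w₀] g) : kk f w₀ = g w₀ :=
  ((MeromorphicNFAt.eventuallyEq_nhdsNE_iff_eventuallyEq_nhds (kk_nf h0)
    hg.meromorphicNFAt).1 h).self_of_nhds

/-- the upper end -/
private lemma kk_zero (hm : ∀ t, MeromorphicAt f t)
    (hper : ∀ t : ℂ, (fun s => f (s + 1)) =ᶠ[𝓝[≠] t] f) {φ : ℂ → ℂ} (hφ : MeromorphicAt φ 0)
    {y₁ : ℝ} (h : ∀ t : ℂ, y₁ < t.im → f =ᶠ[𝓝[≠] t] fun s => φ (exp (2 * Real.pi * I * s))) :
    kk f =ᶠ[𝓝[≠] 0] φ := by
  have h1 : ∀ᶠ w in 𝓝[≠] (0:ℂ), ‖w‖ < Real.exp (-(2 * Real.pi * y₁)) := by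
    have h2 : ∀ᶠ w in 𝓝 (0:ℂ), ‖w‖ < Real.exp (-(2 * Real.pi * y₁)) := by
      refine continuous_norm.continuousAt.eventually_lt continuousAt_const ?_
      simp [Real.exp_pos]
    exact h2.filter_mono nhdsWithin_le_nhds
  filter_upwards [h1, self_mem_nhdsWithin, hφ.eventually_analyticAt] with w hw hw0 hwa
  have hw0' : w ≠ 0 := hw0
  apply kk_an hw0' hwa
  refine (kk_eq hm hper hw0').symm.trans ?_
  apply pull hw0'
  have him : y₁ < (lg w).im := lt_im (exp_lg hw0') hw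
  filter_upwards [ph_E hper (lg w), h _ him] with s hs hs'
  rw [hs, hs']

/-- the lower end -/
private lemma kk_inf (hm : ∀ t, MeromorphicAt f t)
    (hper : ∀ t : ℂ, (fun s => f (s + 1)) =ᶠ[𝓝[≠] t] f) {φ : ℂ → ℂ} (hφ : MeromorphicAt φ 0)
    {y₁ : ℝ} (h : ∀ t : ℂ, y₁ < t.im →
      (fun s => f (-s)) =ᶠ[𝓝[≠] t] fun s => φ (exp (2 * Real.pi * I * s))) :
    (fun w => kk f w⁻¹) =ᶠ[𝓝[≠] 0] φ := by
  have h1 : ∀ᶠ w in 𝓝[≠] (0:ℂ), ‖w‖ < Real.exp (-(2 * Real.pi * y₁)) := by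
    have h2 : ∀ᶠ w in 𝓝 (0:ℂ), ‖w‖ < Real.exp (-(2 * Real.pi * y₁)) := by
      refine continuous_norm.continuousAt.eventually_lt continuousAt_const ?_
      simp [Real.exp_pos]
    exact h2.filter_mono nhdsWithin_le_nhds
  filter_upwards [h1, self_mem_nhdsWithin, hφ.eventually_analyticAt] with w hw hw0 hwa
  have hw0' : w ≠ 0 := hw0
  have hw1 : w⁻¹ ≠ 0 := inv_ne_zero hw0'
  have hga : AnalyticAt ℂ (fun z => φ z⁻¹) w⁻¹ := by
    have h3 : AnalyticAt ℂ (fun z : ℂ => z⁻¹) w⁻¹ := analyticAt_id.inv hw1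
    refine AnalyticAt.fun_comp (g := φ) (f := fun z : ℂ => z⁻¹) ?_ h3
    rw [inv_inv]
    exact hwa
  have key : kk f w⁻¹ = (fun z => φ z⁻¹) w⁻¹ := by
    apply kk_an hw1 hga
    refine (kk_eq hm hper hw1).symm.trans ?_
    apply pull hw1
    have hE := exp_lg hw1
    have him : y₁ < (-(lg w⁻¹)).im := by
      refine lt_im (w := w) ?_ hw
      rw [mul_neg, exp_neg, hE, inv_inv]
    have hneg : Tendsto (fun s : ℂ => -s) (𝓝[≠] (lg w⁻¹)) (𝓝[≠] (-(lg w⁻¹))) := by
      refine tendsto_nhdsWithin_iff.2 ⟨?_, ?_⟩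
      · exact (continuous_neg.tendsto _).mono_left nhdsWithin_le_nhds
      · filter_upwards [self_mem_nhdsWithin] with s hs h4
        exact hs (neg_injective h4)
    filter_upwards [ph_E hper (lg w⁻¹), hneg.eventually (h _ him)] with s hs hs'
    rw [neg_neg] at hs'
    rw [hs, hs', mul_neg, exp_neg]
  rw [key]
  simp

/-- the curve is a rational function of the exponential function -/
private lemma rat (H : ∀ h > 0, Crv f h) {N : ℕ} (hN : Val f univ N) :
    ∃ P Q : ℂ[X], Q ≠ 0 ∧ ∀ z, AnalyticAt ℂ (kk f) z → kk f z * Q.eval z = P.eval z := by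
  have hm := RangeAux.mer H
  have hper := RangeAux.per H
  have hnc := RangeAux.nc H
  obtain ⟨φ, hφ, y₁, h1⟩ := end_mero (f := f) (y₀ := 0) (fun t _ => hm t) (fun t _ => hper t)
    (fun t _ => hnc t) (N := N) (fun u hu => hN u fun i => ⟨mem_univ _, (hu i).2⟩)
  have hneg : ∀ t : ℂ, Tendsto (fun s : ℂ => -s) (𝓝[≠] t) (𝓝[≠] (-t)) := by
    intro t
    refine tendsto_nhdsWithin_iff.2 ⟨?_, ?_⟩
    · exact (continuous_neg.tendsto _).mono_left nhdsWithin_le_nhds
    · filter_upwards [self_mem_nhdsWithin] with s hs h4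
      exact hs (neg_injective h4)
  have hrg : ∀ u : ℂ, Rg (fun s => f (-s)) u → Rg f (-u) := by
    intro u hu
    have h2 : AnalyticAt ℂ f (-u) := by
      have h3 : AnalyticAt ℂ (fun s : ℂ => -s) (-u) := analyticAt_id.neg
      have h4 : AnalyticAt ℂ (fun s => (fun s => f (-s)) (-s)) (-u) := by
        refine AnalyticAt.fun_comp (g := fun s => f (-s)) (f := fun s : ℂ => -s) ?_ h3
        rw [neg_neg]
        exact hu.1
      simpa using h4
    refine ⟨h2, ?_⟩
    have h3 := hu.2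
    rw [deriv_comp_neg] at h3
    intro h4
    exact h3 (by rw [h4, neg_zero])
  obtain ⟨ψ, hψ, y₂, h2⟩ := end_mero (f := fun s => f (-s)) (y₀ := 0)
    (fun t _ => (hm (-t)).comp_analyticAt (g := fun s : ℂ => -s) (by fun_prop))
    (fun t _ => by
      have h3 : Tendsto (fun s : ℂ => -s - 1) (𝓝[≠] t) (𝓝[≠] (-t - 1)) := by
        refine tendsto_nhdsWithin_iff.2 ⟨?_, ?_⟩
        · have : Continuous fun s : ℂ => -s - 1 := by fun_prop
          exact (this.tendsto _).mono_left nhdsWithin_le_nhds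
        · filter_upwards [self_mem_nhdsWithin] with s hs h4
          apply hs
          have h5 : -s - 1 = -t - 1 := h4
          have h6 : s = t := by linear_combination -h5
          exact h6
      filter_upwards [h3.eventually (hper (-t - 1))] with s hs
      have h4 : -s - 1 + 1 = -s := by ring
      rw [h4] at hs
      show f (-(s + 1)) = f (-s)
      rw [hs]
      congr 1
      ring)
    (fun t _ x hx => by
      apply hnc (-t) x
      have h3 := hneg (-t)
      rw [neg_neg] at h3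
      filter_upwards [h3.eventually hx] with s hs
      rwa [neg_neg] at hs)
    (N := N) (fun u hu => by
      obtain ⟨i, j, hij, n, hn⟩ := hN (fun i => -(u i)) fun i =>
        ⟨mem_univ _, hrg _ (hu i).2.1, (hu i).2.2⟩
      refine ⟨i, j, hij, -n, ?_⟩
      push_cast
      linear_combination -hn)
  refine Pool.Agent.MP_ae5b4e_an_MERO.rational_of_meromorphic ?_ ?_
  · intro z
    by_cases hz : z = 0
    · rw [hz]
      exact hφ.congr (kk_zero hm hper hφ h1).symm
    · exact (kk_nf hz).meromorphicAt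
  · exact hψ.congr (kk_inf hm hper hψ h2).symm

/-- a rational relation gives algebraicity -/
private lemma rel_alg {k : ℂ → ℂ} {w₀ : ℂ} {P Q : ℂ[X]} (hQ : Q ≠ 0)
    (h : ∀ᶠ w in 𝓝 w₀, k w * Q.eval w = P.eval w) :
    Pool.Agent.MP_ae5b4e_an_GENC.AlgAt w₀ k := by
  refine ⟨Polynomial.C Q * Polynomial.X - Polynomial.C P, ?_, ?_⟩
  · intro h1
    have h2 := congrArg (fun q => Polynomial.coeff q 1) h1
    simp [Polynomial.coeff_C] at h2
    exact hQ h2
  · filter_upwards [h] with w hw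
    simp only [Polynomial.evalEval, Polynomial.eval_sub, Polynomial.eval_mul, Polynomial.eval_C,
      Polynomial.eval_X]
    linear_combination hw

/-- the derivative of a rational function is rational -/
private lemma rel_deriv {k : ℂ → ℂ} {w₀ : ℂ} {P Q : ℂ[X]} (hk : AnalyticAt ℂ k w₀)
    (h : ∀ᶠ w in 𝓝 w₀, k w * Q.eval w = P.eval w) :
    ∀ᶠ w in 𝓝 w₀, deriv k w * (Q ^ 2).eval w =
      (Polynomial.derivative P * Q - P * Polynomial.derivative Q).eval w := by
  filter_upwards [h.eventually_nhds, hk.eventually_analyticAt] with w h1 h2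
  have h3 : HasDerivAt (fun z => k z * Q.eval z)
      (deriv k w * Q.eval w + k w * (Polynomial.derivative Q).eval w) w :=
    h2.differentiableAt.hasDerivAt.mul (Q.hasDerivAt w)
  have h4 : HasDerivAt (fun z => k z * Q.eval z) ((Polynomial.derivative P).eval w) w :=
    (P.hasDerivAt w).congr_of_eventuallyEq h1
  have h5 := h3.unique h4
  have h6 := h1.self_of_nhds
  simp only [Polynomial.eval_pow, Polynomial.eval_sub, Polynomial.eval_mul]
  linear_combination Q.eval w * h5 - (Polynomial.derivative Q).eval w * h6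

/-- the relation near a good point -/
private lemma good {k : ℂ → ℂ} {s₀ : ℂ} {P Q : ℂ[X]} (hQ : Q ≠ 0)
    (hk : AnalyticAt ℂ k (exp (2 * Real.pi * I * s₀)))
    (hr : ∀ᶠ w in 𝓝 (exp (2 * Real.pi * I * s₀)), k w * Q.eval w = P.eval w)
    (hf : AnalyticAt ℂ f s₀) (hf' : deriv f s₀ ≠ 0)
    (hfk : ∀ᶠ s in 𝓝 s₀, f s = k (exp (2 * Real.pi * I * s))) :
    ∃ R : ℂ[X][X], R ≠ 0 ∧
      ∀ᶠ s in 𝓝 s₀, evalEval (f s) (-(deriv (deriv f) s) / (deriv f s) ^ 2) R = 0 := by
  set w₀ := exp (2 * Real.pi * I * s₀) with hw₀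
  have hEd : ∀ s : ℂ, HasDerivAt (fun s : ℂ => exp (2 * Real.pi * I * s))
      (2 * Real.pi * I * exp (2 * Real.pi * I * s)) s := by
    intro s
    have h1 : HasDerivAt (fun s : ℂ => exp (2 * Real.pi * I * s))
        (exp (2 * Real.pi * I * s) * (2 * Real.pi * I * 1)) s :=
      ((hasDerivAt_id s).const_mul (2 * Real.pi * I)).cexp
    refine h1.congr_deriv ?_
    ring
  have hEc : Tendsto (fun s : ℂ => exp (2 * Real.pi * I * s)) (𝓝 s₀) (𝓝 w₀) :=
    (hEd s₀).continuousAt.tendsto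
  -- the first derivative
  have hd1 : ∀ᶠ s in 𝓝 s₀, deriv f s = 2 * Real.pi * I *
      (deriv k (exp (2 * Real.pi * I * s)) * exp (2 * Real.pi * I * s)) := by
    filter_upwards [hfk.eventually_nhds, hEc.eventually hk.eventually_analyticAt] with s h1 h2
    have h3 : HasDerivAt (fun s => k (exp (2 * Real.pi * I * s)))
        (deriv k (exp (2 * Real.pi * I * s)) * (2 * Real.pi * I * exp (2 * Real.pi * I * s))) s :=
      HasDerivAt.comp s h2.differentiableAt.hasDerivAt (hEd s)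
    have h4 : f =ᶠ[𝓝 s] fun s => k (exp (2 * Real.pi * I * s)) := h1
    rw [h4.deriv_eq, h3.deriv]
    ring
  -- the second derivative
  have hd2 : ∀ᶠ s in 𝓝 s₀, deriv (deriv f) s = (2 * Real.pi * I) ^ 2 *
      ((deriv (deriv k) (exp (2 * Real.pi * I * s)) * exp (2 * Real.pi * I * s) +
        deriv k (exp (2 * Real.pi * I * s))) * exp (2 * Real.pi * I * s)) := by
    filter_upwards [hd1.eventually_nhds, hEc.eventually hk.eventually_analyticAt] with s h1 h2
    have h3 : HasDerivAt (fun s => deriv k (exp (2 * Real.pi * I * s)))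
        (deriv (deriv k) (exp (2 * Real.pi * I * s)) *
          (2 * Real.pi * I * exp (2 * Real.pi * I * s))) s :=
      HasDerivAt.comp (h₂ := deriv k) s h2.deriv.differentiableAt.hasDerivAt (hEd s)
    have h5 := (h3.mul (hEd s)).const_mul (2 * Real.pi * I : ℂ)
    have h4 : deriv f =ᶠ[𝓝 s] fun s => 2 * Real.pi * I *
      (deriv k (exp (2 * Real.pi * I * s)) * exp (2 * Real.pi * I * s)) := h1
    rw [h4.deriv_eq]
    refine (HasDerivAt.deriv h5).trans ?_
    ring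
  have hw0 : w₀ ≠ 0 := exp_ne_zero _
  have hk1 : deriv k w₀ ≠ 0 := by
    intro h1
    apply hf'
    rw [hd1.self_of_nhds, ← hw₀, h1]
    ring
  have hQ2 : Q ^ 2 ≠ 0 := pow_ne_zero _ hQ
  have hr1 := rel_deriv hk hr
  have hr2 := rel_deriv hk.deriv hr1
  have a0 := rel_alg hQ hr
  have a1 := rel_alg hQ2 hr1
  have a2 := rel_alg (pow_ne_zero _ hQ2) hr2
  have aid : Pool.Agent.MP_ae5b4e_an_GENC.AlgAt w₀ (fun w => w) :=
    Pool.Agent.MP_ae5b4e_an_GENC.algAt_id
  have hden : AnalyticAt ℂ (fun w => deriv k w * w * (deriv k w * w)) w₀ :=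
    (hk.deriv.mul analyticAt_id).mul (hk.deriv.mul analyticAt_id)
  have hden0 : (fun w => deriv k w * w * (deriv k w * w)) w₀ ≠ 0 :=
    mul_ne_zero (mul_ne_zero hk1 hw0) (mul_ne_zero hk1 hw0)
  have aden : Pool.Agent.MP_ae5b4e_an_GENC.AlgAt w₀ (fun w => (deriv k w * w * (deriv k w * w))⁻¹) :=
    ((a1.mul aid).mul (a1.mul aid)).inv hden.continuousAt hden0
  have ab := (Pool.Agent.MP_ae5b4e_an_GENC.algAt_const (t := w₀) (-1)).mul
    ((((a2.mul aid).add a1).mul aid).mul aden)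
  have hban : AnalyticAt ℂ (fun w => (-1 : ℂ) * ((deriv (deriv k) w * w + deriv k w) * w *
      (deriv k w * w * (deriv k w * w))⁻¹)) w₀ :=
    analyticAt_const.mul ((((hk.deriv.deriv.mul analyticAt_id).add hk.deriv).mul analyticAt_id).mul
      (hden.inv hden0))
  have hnc : ¬ ∀ᶠ w in 𝓝 w₀, k w = k w₀ := by
    intro h1
    apply hk1
    have h2 : k =ᶠ[𝓝 w₀] fun _ => k w₀ := h1
    rw [h2.deriv_eq, deriv_const]
  obtain ⟨R, hR, hR0⟩ := Pool.Agent.MP_ae5b4e_an_GENC.alg_dep hk hban a0 ab hnc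
  refine ⟨R, hR, ?_⟩
  have hk1e : ∀ᶠ s in 𝓝 s₀, deriv k (exp (2 * Real.pi * I * s)) ≠ 0 :=
    hEc.eventually (hk.deriv.continuousAt.eventually_ne hk1)
  filter_upwards [hEc.eventually hR0, hfk, hd1, hd2, hk1e] with s h1 h2 h3 h4 h5
  have h6 : exp (2 * Real.pi * I * s) ≠ 0 := exp_ne_zero _
  have h7 : -(deriv (deriv f) s) / (deriv f s) ^ 2 =
      (-1 : ℂ) * ((deriv (deriv k) (exp (2 * Real.pi * I * s)) * exp (2 * Real.pi * I * s) +
        deriv k (exp (2 * Real.pi * I * s))) * exp (2 * Real.pi * I * s) *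
      (deriv k (exp (2 * Real.pi * I * s)) * exp (2 * Real.pi * I * s) *
        (deriv k (exp (2 * Real.pi * I * s)) * exp (2 * Real.pi * I * s)))⁻¹) := by
    rw [h3, h4]
    have h8 := tpi
    generalize (2 * Real.pi * I : ℂ) = c at *
    field_simp
  rw [h7, h2]
  exact h1

/-- a curve in the plane which is finitely valent modulo one is a rational function of
`exp (2 π i t)`, so its kernel is algebraic -/
theorem alg_of_val {f : ℂ → ℂ} (H : ∀ h > 0, Crv f h) {N : ℕ} (hN : Val f univ N) {t : ℂ}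
    (ht : Rg f t) : ∃ P : ℂ[X][X], P ≠ 0 ∧
      ∀ᶠ s in 𝓝 t, evalEval (f s) (-(deriv (deriv f) s) / (deriv f s) ^ 2) P = 0 := by
  have hm := RangeAux.mer H
  have hper := RangeAux.per H
  obtain ⟨P, Q, hQ, hPQ⟩ := rat H hN
  obtain ⟨r, hr, hrg⟩ := Metric.isOpen_iff.1 (isOpen_rg f) t ht
  have h0 : exp (2 * Real.pi * I * t) ≠ 0 := exp_ne_zero _
  -- generic points near `t`
  have h1 : ∀ᶠ s in 𝓝[≠] t, f s = kk f (exp (2 * Real.pi * I * s)) := by
    filter_upwards [ph_E hper t, (tendsto_E t).eventually (kk_eq hm hper h0)] with s hs hs'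
    rw [← hs, hs']
  have h2 : ∀ᶠ s in 𝓝[≠] t, AnalyticAt ℂ (kk f) (exp (2 * Real.pi * I * s)) :=
    (tendsto_E t).eventually (kk_nf h0).meromorphicAt.eventually_analyticAt
  have h3 : ∀ᶠ s in 𝓝[≠] t, s ∈ ball t r := nhdsWithin_le_nhds (ball_mem_nhds t hr)
  have h4 : ∀ᶠ s in 𝓝[≠] t, ∀ᶠ s' in 𝓝 s, f s' = kk f (exp (2 * Real.pi * I * s')) := by
    filter_upwards [eventually_eventually_nhdsWithin.2 h1, self_mem_nhdsWithin] with s hs hs'
    rwa [(isOpen_compl_singleton).nhdsWithin_eq hs'] at hs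
  obtain ⟨s₀, h5, h6, h7⟩ := (h2.and (h3.and h4)).exists
  have hg0 := hrg h6
  obtain ⟨R, hR, hR0⟩ := good (f := f) (s₀ := s₀) hQ h5
    (h5.eventually_analyticAt.mono fun w hw => hPQ w hw) hg0.1 hg0.2 h7
  refine ⟨R, hR, ?_⟩
  have han : AnalyticOnNhd ℂ
      (fun s => evalEval (f s) (-(deriv (deriv f) s) / (deriv f s) ^ 2) R) (ball t r) := by
    intro s hs
    obtain ⟨h8, h9⟩ := hrg hs
    exact Pool.Agent.MP_ae5b4e_an_GEN.Complexify.analyticAt_ee h8
      (h8.deriv.deriv.neg.div (h8.deriv.pow 2) (pow_ne_zero 2 h9)) R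
  have hz := han.eqOn_zero_of_preconnected_of_eventuallyEq_zero
    (convex_ball t r).isPreconnected h6 hR0
  filter_upwards [ball_mem_nhds t hr] with s hs
  exact hz hs

end Pool.Agent.MP_ae5b4e_an_FV
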