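import Mathlib
import Pool.Agent.Lib.MP_ae5b4e_an_SVC.Defs

/-!
# MP_ae5b4e_an, project FV: finitely multivalued fields (definitions)
-/

noncomputable section

namespace Pool.Agent.MP_ae5b4e_an_FV

open Complex Set Filter Topology Metric

/-- The germs of the meromorphic continuation of the field `κ` on the unit circle: `Branch κ z g`
means that the germ of `g` at `z` is obtained from `κ` by continuation along a chain of discs. -/
inductive Branch (κ : ℝ → ℝ) : ℂ → (ℂ → ℂ) → Prop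
  | base (θ : ℝ) (g : ℂ → ℂ) (hg : AnalyticAt ℂ g (exp (θ * I)))
      (h : ∀ᶠ t : ℝ in 𝓝 θ, g (exp (t * I)) = κ t) : Branch κ (exp (θ * I)) g
  | congr (z : ℂ) (g g' : ℂ → ℂ) (hb : Branch κ z g) (h : g =ᶠ[𝓝[≠] z] g') : Branch κ z g'
  | move (c : ℂ) (r : ℝ) (g : ℂ → ℂ) (z w : ℂ) (hb : Branch κ z g)
      (hg : MeromorphicOn g (ball c r)) (hz : z ∈ ball c r) (hw : w ∈ ball c r) : Branch κ w g

/-- A class of germs which is closed under meromorphic continuation, with at most `N` germs at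
every point. -/
structure FVal (B : ℂ → (ℂ → ℂ) → Prop) (N : ℕ) : Prop where
  congr : ∀ (z : ℂ) (g g' : ℂ → ℂ), B z g → g =ᶠ[𝓝[≠] z] g' → B z g'
  move : ∀ (c : ℂ) (r : ℝ) (g : ℂ → ℂ) (z w : ℂ), B z g → MeromorphicOn g (ball c r) →
    z ∈ ball c r → w ∈ ball c r → B w g
  fin : ∀ (z : ℂ) (g : Fin (N + 1) → ℂ → ℂ), (∀ i, B z (g i)) →
    ∃ i j, i ≠ j ∧ g i =ᶠ[𝓝[≠] z] g j

/-- from the kernel `k` of the conic to the field `K`, in the coordinate `x = exp (i θ)` -/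
def ukern (g : ℂ → ℂ) (x : ℂ) : ℂ := 2 * I * x * (g x + x⁻¹)

/-- `f` takes every value at most `N` times on `D` -/
def NVal (f : ℂ → ℂ) (D : Set ℂ) (N : ℕ) : Prop :=
  ∀ u : Fin (N + 1) → ℂ, (∀ i, u i ∈ D) → (∀ i, f (u i) = f (u 0)) → ∃ i j, i ≠ j ∧ u i = u j

theorem fval_branch {κ : ℝ → ℝ} {N : ℕ} (h : ∀ (z : ℂ) (g : Fin (N + 1) → ℂ → ℂ),
    (∀ i, Branch κ z (g i)) → ∃ i j, i ≠ j ∧ g i =ᶠ[𝓝[≠] z] g j) : FVal (Branch κ) N where
  congr := Branch.congr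
  move := Branch.move
  fin := h

end Pool.Agent.MP_ae5b4e_an_FV
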