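import Pool.Agent.Lib.MP_ae5b4e_an_FV.Defs
import Pool.Agent.Lib.MP_ae5b4e_an_SVC.Strip
import Pool.Agent.Lib.MP_ae5b4e_an_SVC.Ode
import Pool.Agent.Lib.MP_ae5b4e_an_SVC.Aff

/-!
# MP_ae5b4e_an, project FV: transport of the germs along the curve
-/

noncomputable section

namespace Pool.Agent.MP_ae5b4e_an_FV

open Complex Set Filter Topology Metric
open Pool.Agent.MP_ae5b4e_an_NBT (St isOpen_St convex_St)
open Pool.Agent.MP_ae5b4e_an_SVC

variable {B : ℂ → (ℂ → ℂ) → Prop} {N : ℕ} {f : ℂ → ℂ} {h : ℝ}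

theorem FVal.kern (hB : FVal B N) : FVal (fun z g => B z (ukern g)) N where
  congr z g g' hb hg := by
    refine hB.congr z _ _ hb ?_
    filter_upwards [hg] with x hx
    unfold ukern
    rw [hx]
  move c r g z w hb hg hz hw := by
    refine hB.move c r _ z w hb ?_ hz hw
    intro x hx
    have h1 : MeromorphicAt (fun x : ℂ => 2 * I * x) x := by
      have : AnalyticAt ℂ (fun x : ℂ => 2 * I * x) x := by fun_prop
      exact this.meromorphicAt
    have h2 : MeromorphicAt (fun x : ℂ => x⁻¹) x := (MeromorphicAt.id x).inv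
    exact h1.mul ((hg x hx).add h2)
  fin z g hg := by
    obtain ⟨i, j, hij, h⟩ := hB.fin z (fun i => ukern (g i)) hg
    refine ⟨i, j, hij, ?_⟩
    have h0 : ∀ᶠ x in 𝓝[≠] z, x ≠ 0 := by
      by_cases hz : z = 0
      · rw [hz]
        exact self_mem_nhdsWithin
      · exact nhdsWithin_le_nhds (isOpen_compl_singleton.mem_nhds hz)
    filter_upwards [h, h0] with x hx hx0
    have h1 : 2 * I * x ≠ 0 := mul_ne_zero (mul_ne_zero two_ne_zero I_ne_zero) hx0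
    have h2 : 2 * I * x * (g i x + x⁻¹) = 2 * I * x * (g j x + x⁻¹) := hx
    exact add_right_cancel (mul_left_cancel₀ h1 h2)

/-- analytic local inverse in one variable -/
private theorem germ_inverse {f : ℂ → ℂ} {x : ℂ} (hf : AnalyticAt ℂ f x) (hd0 : deriv f x ≠ 0) :
    ∃ g : ℂ → ℂ, AnalyticAt ℂ g (f x) ∧ g (f x) = x ∧ (∀ᶠ z in 𝓝 x, g (f z) = z) ∧
      (∀ᶠ w in 𝓝 (f x), f (g w) = w) := by
  have hs : HasStrictDerivAt f (deriv f x) x := hf.hasStrictDerivAt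
  have hF := hs.hasStrictFDerivAt_equiv hd0
  refine ⟨hF.localInverse f _ x, ?_, hF.localInverse_apply_image, hF.eventually_left_inverse,
    hF.eventually_right_inverse⟩
  have h1 := (hF.toOpenPartialHomeomorph f).analyticAt_symm' (a := x)
    (i := ContinuousLinearEquiv.unitsEquivAut ℂ (Units.mk0 (deriv f x) hd0))
    hF.mem_toOpenPartialHomeomorph_source (by
      rw [hF.toOpenPartialHomeomorph_coe]; exact hf) (by
      rw [hF.toOpenPartialHomeomorph_coe]; exact hF.hasFDerivAt.fderiv)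
  rw [hF.toOpenPartialHomeomorph_coe] at h1
  exact h1

/-- the local step -/
private theorem germ_step (hB : FVal B N) {b : ℂ} (hb : Rg f b) :
    ∃ δ : ℝ, 0 < δ ∧ ∀ t ∈ ball b δ, (∃ g : ℂ → ℂ, B (f t) g ∧ Ode g f t) → ∀ s ∈ ball b δ,
      ∃ g : ℂ → ℂ, B (f s) g ∧ Ode g f s := by
  obtain ⟨φ, hφa, hφb, hφl, hφr⟩ := germ_inverse hb.1 hb.2
  obtain ⟨G, hGdef⟩ : ∃ G : ℂ → ℂ, G = fun x => -(deriv (deriv f) (φ x)) / (deriv f (φ x)) ^ 2 :=
    ⟨_, rfl⟩
  have hGa : AnalyticAt ℂ G (f b) := by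
    have h1 : AnalyticAt ℂ (fun x => deriv f (φ x)) (f b) := by
      have h2 : AnalyticAt ℂ (deriv f) (φ (f b)) := by rw [hφb]; exact hb.1.deriv
      exact h2.fun_comp hφa
    have h3 : AnalyticAt ℂ (fun x => deriv (deriv f) (φ x)) (f b) := by
      have h2 : AnalyticAt ℂ (deriv (deriv f)) (φ (f b)) := by rw [hφb]; exact hb.1.deriv.deriv
      exact h2.fun_comp hφa
    rw [hGdef]
    refine h3.neg.div (h1.pow 2) (pow_ne_zero _ ?_)
    rw [hφb]
    exact hb.2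
  obtain ⟨r, hr, hr'⟩ := Metric.eventually_nhds_iff_ball.1
    (hGa.eventually_analyticAt.and (hφa.eventually_analyticAt.and hφr))
  have hcont : ∀ᶠ s in 𝓝 b, f s ∈ ball (f b) r := hb.1.continuousAt (ball_mem_nhds _ hr)
  obtain ⟨δ, hδ, hδ'⟩ := Metric.eventually_nhds_iff_ball.1 (hcont.and hφl)
  refine ⟨δ, hδ, fun t ht hex s hs => ?_⟩
  obtain ⟨g, hg, hode⟩ := hex
  obtain ⟨h1, h2⟩ := hδ' t ht
  have hφt : ContinuousAt φ (f t) := (hr' _ h1).2.1.continuousAt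
  have hgG : g =ᶠ[𝓝[≠] (f t)] G := by
    have h3 : Tendsto φ (𝓝[≠] (f t)) (𝓝[≠] t) := by
      refine tendsto_nhdsWithin_of_tendsto_nhds_of_eventually_within _ ?_ ?_
      · have h4 := hφt.tendsto
        rw [h2] at h4
        exact h4.mono_left nhdsWithin_le_nhds
      · filter_upwards [self_mem_nhdsWithin, nhdsWithin_le_nhds (isOpen_ball.mem_nhds h1)]
          with x hx hxr
        intro h5
        apply hx
        rw [mem_singleton_iff] at h5 ⊢
        rw [← (hr' x hxr).2.2, h5]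
    filter_upwards [h3.eventually hode, nhdsWithin_le_nhds (isOpen_ball.mem_nhds h1)]
      with x hx hxr
    rw [(hr' x hxr).2.2] at hx
    rw [hGdef]
    exact hx
  have hBG : B (f t) G := hB.congr _ _ _ hg hgG
  refine ⟨G, hB.move (f b) r G (f t) (f s) hBG (fun x hx => (hr' x hx).1.meromorphicAt) h1
    (hδ' s hs).1, ?_⟩
  filter_upwards [nhdsWithin_le_nhds (isOpen_ball.mem_nhds hs)] with w hw
  rw [hGdef]
  simp only [(hδ' w hw).2]

/-- the germs of the kernel along the curve -/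
theorem germ_strip (hB : FVal B N) (H : Crv f h) {t₀ : ℂ} (ht₀ : t₀ ∈ St (-h) h) (hr : Rg f t₀)
    {g₀ : ℂ → ℂ} (h0 : B (f t₀) g₀) (hode : Ode g₀ f t₀) {t : ℂ} (ht : t ∈ St (-h) h)
    (htr : Rg f t) : ∃ g : ℂ → ℂ, B (f t) g ∧ Ode g f t := by
  obtain ⟨R, hR⟩ : ∃ R : Set ℂ, R = {t | t ∈ St (-h) h ∧ Rg f t} := ⟨_, rfl⟩
  obtain ⟨A, hA⟩ : ∃ A : Set ℂ, A = {t | t ∈ R ∧ ∃ g : ℂ → ℂ, B (f t) g ∧ Ode g f t} := ⟨_, rfl⟩
  have hRo : IsOpen R := by
    rw [hR]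
    exact (isOpen_St (-h) h).inter (isOpen_rg f)
  have hRc : IsPreconnected R := by
    rw [hR]
    exact H.isPreconnected_rg
  have hRg : ∀ s ∈ R, Rg f s := by
    intro s hs
    rw [hR] at hs
    exact hs.2
  have hAo : IsOpen A := by
    rw [isOpen_iff_mem_nhds]
    intro s hs
    rw [hA] at hs
    obtain ⟨δ, hδ, hstep⟩ := germ_step hB (hRg s hs.1)
    filter_upwards [hRo.mem_nhds hs.1, ball_mem_nhds s hδ] with x hx1 hx2
    rw [hA]
    exact ⟨hx1, hstep s (mem_ball_self hδ) hs.2 x hx2⟩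
  have hcl : closure A ∩ R ⊆ A := by
    rintro b ⟨hb1, hb2⟩
    obtain ⟨δ, hδ, hstep⟩ := germ_step hB (hRg b hb2)
    obtain ⟨s, hs, hsb⟩ := Metric.mem_closure_iff.1 hb1 δ hδ
    rw [hA] at hs ⊢
    have h1 : s ∈ ball b δ := by
      rw [mem_ball, dist_comm]
      exact hsb
    exact ⟨hb2, hstep s h1 hs.2 b (mem_ball_self hδ)⟩
  have h0R : t₀ ∈ R := by
    rw [hR]
    exact ⟨ht₀, hr⟩
  have h0A : t₀ ∈ A := by
    rw [hA]
    exact ⟨h0R, g₀, h0, hode⟩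
  have hfin := hRc.subset_of_closure_inter_subset hAo ⟨t₀, h0R, h0A⟩ hcl
  have h1 : t ∈ R := by
    rw [hR]
    exact ⟨ht, htr⟩
  have h2 := hfin h1
  rw [hA] at h2
  exact h2.2

/-- two points with the same value and the same germ of the kernel -/
theorem aff_germ {t₁ t₂ : ℂ} {g₁ g₂ : ℂ → ℂ} (r1 : Rg f t₁) (r2 : Rg f t₂) (o1 : Ode g₁ f t₁)
    (o2 : Ode g₂ f t₂) (heq : f t₁ = f t₂) (hg : g₁ =ᶠ[𝓝[≠] f t₁] g₂) :
    ∃ A B : ℂ, A ≠ 0 ∧ A * t₁ + B = t₂ ∧ ∀ᶠ s in 𝓝 t₁, f (A * s + B) = f s := by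
  have h1 : Tendsto f (𝓝[≠] t₂) (𝓝[≠] (f t₁)) := by
    rw [heq]
    exact r2.1.differentiableAt.hasDerivAt.tendsto_nhdsNE r2.2
  refine aff_local (K := g₁) r1 r2 o1 ?_ heq
  filter_upwards [o2, h1.eventually hg] with s hs1 hs2
  rw [hs2]
  exact hs1

end Pool.Agent.MP_ae5b4e_an_FV
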