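import Pool.Agent.Lib.MP_ae5b4e_an_NBT.ConD
import Pool.Agent.Lib.MP_ae5b4e_an_NBT.DomE
import Pool.Agent.Lib.MP_ae5b4e_an_NBT.Reg1
import Pool.Agent.Lib.MP_ae5b4e_an_LU.Defs
import Pool.Agent.Lib.MP_ae5b4e_an_SVC.Strip
import Pool.Agent.Lib.MP_ae5b4e_an_SVC.Link

/-!
# MP_ae5b4e_an, project FV: consequences of the natural boundary
-/

noncomputable section

namespace Pool.Agent.MP_ae5b4e_an_FV

open Complex Set Filter Topology Metric
open Pool.Agent.MP_ae5b4e_an_NBT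
open Pool.Agent.MP_ae5b4e_an_NB2 (Sys Lab Fu NBArc dep)
open Pool.Agent.MP_ae5b4e_an_SVC (Crv MaxH)

variable {k : ℂ → ℂ} {F G : ℂ × ℂ → ℂ} {c h : ℝ}

theorem nbarc (hN : NBd k F c h G) {Y : Sys} {L : ℂ × ℂ → ℂ} (hL : Lab Y h L)
    (hG : ∀ t ∈ St (-h) h, EqM G (fun p => Y.y2 (L p) / Y.y1 (L p)) (t, 0)) {l : ℝ} (hl : 0 < l)
    (hlh : l ≤ h / 2) : NBArc Y h 0 l L := by
  intro β _ hβi hex
  obtain ⟨δ, hδ, g, hg, t₁, ht₁, -, hd0, hd1, he⟩ := hex
  have hh : 0 < h := hL.h_pos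
  have hd2 : 0 < h - t₁.im := hd0
  have hd3 : h - t₁.im < l / 4 := hd1
  have him1 : t₁.im < h := by linarith
  have him2 : 0 < t₁.im := by linarith
  have hmem : t₁ ∈ St (-h) h := ⟨by linarith, him1⟩
  refine hN.nb β (by rw [hβi]; exact abs_of_pos hh) ⟨δ, hδ, g, hg, t₁, ht₁, ?_, ?_⟩
  · rw [abs_of_pos him2]
    exact him1
  · exact EqM.trans he (hG t₁ hmem).symm

/-- a meromorphic function which is not locally constant is locally univalent near the point -/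
private theorem nba_near {f : ℂ → ℂ} {t : ℂ} (hf : MeromorphicAt f t)
    (hnc : ∀ x, ¬ ∀ᶠ s in 𝓝[≠] t, f s = x) : ∀ᶠ s in 𝓝[≠] t, AnalyticAt ℂ f s ∧ deriv f s ≠ 0 := by
  have h1 : ∀ᶠ s in 𝓝[≠] t, AnalyticAt ℂ f s := hf.eventually_analyticAt
  rcases hf.deriv.eventually_eq_zero_or_eventually_ne_zero with h2 | h2
  · exfalso
    have h3 : ∀ᶠ s in 𝓝[≠] t, AnalyticAt ℂ f s ∧ deriv f s = 0 := h1.and h2
    rw [eventually_nhdsWithin_iff] at h3
    obtain ⟨r, hr, h4⟩ := Metric.eventually_nhds_iff_ball.1 h3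
    have hpre : IsPreconnected (ball t r \ {t}) :=
      Pool.Agent.MP_ae5b4e_an_MERO.isPreconnected_diff isOpen_ball (convex_ball t r)
        (countable_singleton t)
    have hop : IsOpen (ball t r \ {t}) := isOpen_ball.sdiff isClosed_singleton
    have hmem : ∀ᶠ s in 𝓝[≠] t, s ∈ ball t r \ {t} := by
      filter_upwards [self_mem_nhdsWithin, nhdsWithin_le_nhds (ball_mem_nhds t hr)] with s hs1 hs2
      exact ⟨hs2, hs1⟩
    obtain ⟨s₀, hs₀⟩ := hmem.exists
    apply hnc (f s₀)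
    filter_upwards [hmem] with s hs
    refine hop.is_const_of_deriv_eq_zero hpre ?_ ?_ hs hs₀
    · intro x hx
      exact (h4 x hx.1 hx.2).1.differentiableAt.differentiableWithinAt
    · intro x hx
      exact (h4 x hx.1 hx.2).2
  · exact h1.and h2

/-- the height of the family is the maximal height of the limit curve -/
theorem max_of_nb (hN : NBd k F c h G) : MaxH (sl G 0) h := by
  intro h' hh' g hg hg0
  have H : Crv (sl G 0) h := (Pool.Agent.MP_ae5b4e_an_SVC.crv_of_conE hN.toConE).1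
  have hh : 0 < h := H.pos
  have h0 : (0 : ℂ) ∈ St (-h) h := ⟨by simpa using hh, by simpa using hh⟩
  have h0' : (0 : ℂ) ∈ St (-h') h' := ⟨by simpa using hh.trans hh', by simpa using hh.trans hh'⟩
  have hsub : St (-h) h ⊆ St (-h') h' := fun t ht => ⟨by linarith [ht.1], by linarith [ht.2]⟩
  have hg1 : g =ᶠ[𝓝[≠] (0 : ℂ)] sl G 0 := hg0.filter_mono nhdsWithin_le_nhds
  have hid : ∀ t ∈ St (-h) h, g =ᶠ[𝓝[≠] t] sl G 0 := fun t ht =>
    H.ident (fun s hs => hg s (hsub hs)) h0 hg1.frequently ht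
  -- not locally constant
  have hnc : ∀ t ∈ St (-h') h', ∀ x, ¬ ∀ᶠ s in 𝓝[≠] t, g s = x := by
    intro t ht x hx
    have h1 : g =ᶠ[𝓝[≠] (0 : ℂ)] fun _ => x :=
      Pool.Agent.MP_ae5b4e_an_MERO.mero_ident (isOpen_St (-h') h')
        (convex_St (-h') h').isPreconnected hg
        (fun s _ => (analyticAt_const (v := x)).meromorphicAt) ht hx.frequently h0'
    refine H.not_const h0 x ?_
    filter_upwards [h1, hg1] with s hs1 hs2
    rw [← hs2, hs1]
  have hcount : {t : ℂ | t ∈ St (-h') h' ∧ ¬ Pool.Agent.MP_ae5b4e_an_SVC.Rg g t}.Countable := by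
    refine Pool.Agent.MP_ae5b4e_an_MERO.CN.countable_of_eventually (D := St (-h') h')
      (fun t ht => ht.1) fun t ht => ?_
    filter_upwards [nba_near (hg t ht) (hnc t ht)] with s hs hs'
    exact hs'.2 hs
  -- a regular point of the boundary line
  obtain ⟨x, hx⟩ : ∃ x : ℝ, ((x : ℂ) + h * I) ∉
      {t : ℂ | t ∈ St (-h') h' ∧ ¬ Pool.Agent.MP_ae5b4e_an_SVC.Rg g t} := by
    by_contra hcon
    push Not at hcon
    have hinj : Function.Injective fun x : ℝ => ((x : ℂ) + h * I) := by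
      intro a b hab
      have : (a : ℂ) = b := add_right_cancel hab
      exact_mod_cast this
    have h1 := hcount.preimage hinj
    have h2 : (fun x : ℝ => ((x : ℂ) + h * I)) ⁻¹'
        {t : ℂ | t ∈ St (-h') h' ∧ ¬ Pool.Agent.MP_ae5b4e_an_SVC.Rg g t} = univ := by
      ext x
      exact ⟨fun _ => mem_univ _, fun _ => hcon x⟩
    rw [h2] at h1
    exact Cardinal.not_countable_real h1
  set b : ℂ := (x : ℂ) + h * I with hb
  have hbi : b.im = h := by simp [hb]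
  have hbS : b ∈ St (-h') h' := ⟨by rw [hbi]; linarith, by rw [hbi]; exact hh'⟩
  have hRg : Pool.Agent.MP_ae5b4e_an_SVC.Rg g b := by
    by_contra hcon
    exact hx ⟨hbS, hcon⟩
  obtain ⟨δ, hδ, hball⟩ := Metric.isOpen_iff.1
    (Pool.Agent.MP_ae5b4e_an_SVC.isOpen_rg g) b hRg
  refine hN.nb b (by rw [hbi]; exact abs_of_pos hh) ?_
  refine Pool.Agent.MP_ae5b4e_an_SVC.reg_of_lu hN.toConE (by rw [hbi]; exact abs_of_pos hh) hδ
    (g := g) (fun z hz => Or.inl (hball hz)) fun z _ hz => ?_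
  exact hid z ⟨(abs_lt.1 hz).1, (abs_lt.1 hz).2⟩

end Pool.Agent.MP_ae5b4e_an_FV
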