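import Pool.Agent.Lib.MP_ae5b4e_an_NB2.ExLab
import Pool.Agent.Lib.MP_ae5b4e_an_LU.TU
import Pool.Agent.Lib.MP_ae5b4e_an_FV.Pole
import Pool.Agent.Lib.MP_ae5b4e_an_FV.ArcB
import Pool.Agent.Lib.MP_ae5b4e_an_FV.NBA

/-!
# MP_ae5b4e_an, project FV: a finitely valent limit curve has no natural boundary
-/

noncomputable section

namespace Pool.Agent.MP_ae5b4e_an_FV

open Complex Set Filter Topology Metric
open Pool.Agent.MP_ae5b4e_an_NBT
open Pool.Agent.MP_ae5b4e_an_NB2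
open Pool.Agent.MP_ae5b4e_an_SVC (Rg Val)

variable {k : ℂ → ℂ} {F G : ℂ × ℂ → ℂ} {c h : ℝ} {N : ℕ}

theorem fv_local (hN : NBd k F c h G) (hV : Val (sl G 0) (St (-h) h) N) : False := by
  obtain ⟨Y, L, hL, hf, hG⟩ := exists_lab hN
  have hh : 0 < h := hL.h_pos
  have hon : Y.On (St (-h) h) := hL.on
  have hf1 : ∀ t ∈ St (-h) h, Y.y1 t ≠ 0 → sl G 0 t = Y.y2 t / Y.y1 t := fun t ht => (hf t ht).1
  obtain ⟨l, hl, hlh, hl8, hy⟩ := pole_free hh hon hf1 hV
  -- the box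
  have hDS : ∀ t : ℂ, |t.re| < 2 * l ∧ h - 2 * l < t.im ∧ t.im < h → t ∈ St (-h) h :=
    fun t ht => ⟨by linarith [ht.2.1], ht.2.2⟩
  have hDy : ∀ t : ℂ, |t.re| < 2 * l ∧ h - 2 * l < t.im ∧ t.im < h → Y.y1 t ≠ 0 :=
    fun t ht => hy t ht.1 ht.2.1 ht.2.2
  have hND : NVal (sl G 0) {t : ℂ | |t.re| < 2 * l ∧ h - 2 * l < t.im ∧ t.im < h} N := by
    intro u hu hfu
    obtain ⟨i, j, hij, n, hn⟩ := hV u (fun i => ⟨hDS _ (hu i), by
      have := quot_an (isOpen_St _ _) hon hf1 (hDS _ (hu i)) (hDy _ (hu i))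
      exact ⟨this.1, this.2.2⟩, hfu i⟩)
    refine ⟨i, j, hij, ?_⟩
    have h1 : (u j).re = (u i).re + n := by rw [hn]; simp
    have h2 := abs_lt.1 (hu i).1
    have h3 := abs_lt.1 (hu j).1
    have h4 : |(n : ℝ)| < 1 := by
      rw [abs_lt]
      constructor <;> linarith [h2.1, h2.2, h3.1, h3.2]
    have h5 : n = 0 := by
      have : |n| < 1 := by exact_mod_cast h4
      exact Int.abs_lt_one_iff.1 this
    rw [hn, h5]
    simp
  obtain ⟨q, hq, hArc⟩ := arc_of_val hh hl hlh hon hf1 hy hND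
  have hNB := nbarc hN hL hG hl hlh
  obtain ⟨ε, hε, hU⟩ := not_uni hq
  obtain ⟨D₀, hD₀, hU⟩ := hU Y h L 0 l hL hArc hNB
  -- Theorem A at the point `h I`
  set β : ℂ := (h : ℂ) * I with hβ
  have hβi : β.im = h := by simp [hβ]
  have hβr : β.re = 0 := by simp [hβ]
  have hball : ∀ {z : ℂ} {r : ℝ}, z ∈ ball β r → |z.re| < r ∧ h - r < z.im := by
    intro z r hz
    rw [mem_ball, dist_eq_norm] at hz
    have h1 := (abs_re_le_norm (z - β)).trans_lt hz
    have h2 := (abs_im_le_norm (z - β)).trans_lt hz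
    rw [sub_re, hβr, sub_zero] at h1
    rw [sub_im, hβi, abs_lt] at h2
    exact ⟨h1, by linarith [h2.1]⟩
  have hsub : ∀ z ∈ ball β l ∩ {z | z.im < β.im},
      |z.re| < 2 * l ∧ h - 2 * l < z.im ∧ z.im < h := by
    rintro z ⟨hz1, hz2⟩
    have h1 := hball hz1
    have h2 : z.im < β.im := hz2
    rw [hβi] at h2
    exact ⟨by linarith [h1.1], by linarith [h1.2], h2⟩
  have hθ : (0:ℝ) < (1 + ε)⁻¹ := by positivity
  have hθ1 : (1 + ε)⁻¹ < 1 := inv_lt_one_of_one_lt₀ (by linarith)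
  obtain ⟨w, hw, hwD, hinj⟩ := top_uni β (δ := l) hl (N := N) (f := sl G 0)
    (fun z hz => (quot_an (isOpen_St _ _) hon hf1 (hDS _ (hsub z hz))
      (hDy _ (hsub z hz))).1.differentiableAt.differentiableWithinAt)
    (fun z hz => (quot_an (isOpen_St _ _) hon hf1 (hDS _ (hsub z hz)) (hDy _ (hsub z hz))).2.2)
    (fun u hu hfu => hND u (fun i => hsub _ (hu i)) hfu) hθ hθ1 (min (l / 4) D₀)
    (lt_min (by linarith) hD₀)
  have hw' := hball hw
  have hwh : w.im < h := by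
    have h2 : w.im < β.im := hwD.2
    rwa [hβi] at h2
  have hdep : dep h w = h - w.im := rfl
  have hwl : |w.re| < l / 4 := hw'.1.trans_le (min_le_left _ _)
  have hwi : h - l / 4 < w.im := by
    have := min_le_left (l / 4) D₀
    linarith [hw'.2]
  have hwD₀ : h - w.im < D₀ := by
    have := min_le_right (l / 4) D₀
    linarith [hw'.2]
  have hrad : dep h w / (1 + ε) = (1 + ε)⁻¹ * (β.im - w.im) := by
    rw [hdep, hβi, div_eq_mul_inv, mul_comm]
  have hle : dep h w / (1 + ε) < h - w.im := by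
    rw [hrad, hβi]
    have : 0 < h - w.im := by linarith
    nlinarith
  have hin : ∀ z ∈ ball w (dep h w / (1 + ε)),
      |z.re| < 2 * l ∧ h - 2 * l < z.im ∧ z.im < h := by
    intro z hz
    rw [mem_ball, dist_eq_norm] at hz
    have h1 := (abs_re_le_norm (z - w)).trans_lt hz
    have h2 := (abs_im_le_norm (z - w)).trans_lt hz
    rw [sub_re, abs_lt] at h1
    rw [sub_im, abs_lt] at h2
    have h3 := abs_lt.1 hwl
    refine ⟨?_, by linarith [h2.1], by linarith [h2.2]⟩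
    rw [abs_lt]
    constructor <;> linarith [h1.1, h1.2, h3.1, h3.2]
  refine hU w (by simpa using hwl) (by rw [hdep]; linarith) (by rw [hdep]; exact hwD₀) ⟨?_, ?_, ?_⟩
  · have : 0 < dep h w := by rw [hdep]; linarith
    positivity
  · exact {
      d1 := fun z hz => hon.d1 z (hDS z (hin z hz))
      d1' := fun z hz => hon.d1' z (hDS z (hin z hz))
      d2 := fun z hz => hon.d2 z (hDS z (hin z hz))
      d2' := fun z hz => hon.d2' z (hDS z (hin z hz))
      wr := fun z hz => hon.wr z (hDS z (hin z hz)) }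
  · intro u hu v hv huv
    rw [hrad] at hu hv
    have hu' := hin u (by rw [hrad]; exact hu)
    have hv' := hin v (by rw [hrad]; exact hv)
    exact hinj hu hv ((quot_eq hf1 (hDS u hu') (hDS v hv') (hDy u hu') (hDy v hv')).1 huv)

end Pool.Agent.MP_ae5b4e_an_FV
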