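import Pool.Agent.Lib.MP_ae5b4e_an_NBT.ConD
import Pool.Agent.Lib.MP_ae5b4e_an_NB1.NbFin

/-!
# MP_ae5b4e_an, project FV: Theorem NB_1 (supplied by the project NB1)
-/

noncomputable section

namespace Pool.Agent.MP_ae5b4e_an_FV

open Complex Set Filter Topology Metric
open Pool.Agent.MP_ae5b4e_an_NBT

/-- **Theorem NB_1** -/
theorem nb_one {k : ℂ → ℂ} {F G : ℂ × ℂ → ℂ} {c h : ℝ} (hE : ConE k F c h G)
    (hmax : ∀ y > h, ¬ ExtM F c (c / 4) y 0) : NBd k F c h G :=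
  Pool.Agent.MP_ae5b4e_an_NB1.nb_one hE hmax

end Pool.Agent.MP_ae5b4e_an_FV
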