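import Pool.Agent.Lib.MP_ae5b4e_an_SVC.Fin
import Pool.Agent.Lib.MP_ae5b4e_an_FV.Germ
import Pool.Agent.Lib.MP_ae5b4e_an_FV.NBone
import Pool.Agent.Lib.MP_ae5b4e_an_FV.Loc
import Pool.Agent.Lib.MP_ae5b4e_an_FV.AlgR
import Pool.Agent.Lib.MP_ae5b4e_an_FV.AlgF

/-!
# MP_ae5b4e_an, project FV: the theorem on finitely multivalued fields
-/

noncomputable section

namespace Pool.Agent.MP_ae5b4e_an_FV

open Complex Set Filter Topology Metric
open scoped ContDiff Polynomial
open Pool.Agent.MP_ae5b4e_an_NBT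
open Pool.Agent.MP_ae5b4e_an_SVC

variable {B : ℂ → (ℂ → ℂ) → Prop} {N : ℕ} {k f : ℂ → ℂ} {F : ℂ × ℂ → ℂ} {h c : ℝ}

/-- finite valence of a curve of finite maximal height -/
theorem val_of_max (hB : FVal B N) (H : Crv f h) (hM : MaxH f h) {t₀ : ℝ} {g₀ : ℂ → ℂ}
    (h0 : B (f t₀) g₀) (ho : Ode g₀ f t₀) : Val f (St (-h) h) N := by
  intro u hu
  have R0 : Rg f t₀ := ⟨H.an t₀, H.dr t₀⟩
  have hg : ∀ i, ∃ g : ℂ → ℂ, B (f (u i)) g ∧ Ode g f (u i) := fun i =>
    germ_strip hB H (real_mem H.pos t₀) R0 h0 ho (hu i).1 (hu i).2.1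
  choose g hg1 hg2 using hg
  obtain ⟨i, j, hij, he⟩ := hB.fin (f (u 0)) g fun i => by
    have := hg1 i
    rwa [(hu i).2.2] at this
  refine ⟨i, j, hij, ?_⟩
  have heq : f (u i) = f (u j) := (hu i).2.2.trans (hu j).2.2.symm
  obtain ⟨A, B', hA, hAB, hev⟩ := aff_germ (hu i).2.1 (hu j).2.1 (hg2 i) (hg2 j) heq
    (by rwa [(hu i).2.2])
  have S : Sy f h A B' := sy_of_germ H hA (hu i).1 (by rw [hAB]; exact (hu j).1)
    (hev.filter_mono nhdsWithin_le_nhds).frequently
  obtain ⟨hA1, n, hn⟩ := S.triv H hM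
  exact ⟨n, by rw [← hAB, hA1, hn]; ring⟩

/-- a family with a finitely multivalued kernel: the kernel is rational -/
theorem con_rational (hC : Con k F c) (hB : FVal B N) (h0 : B (F (0, 0)) k) :
    ∃ A B : ℂ[X], B ≠ 0 ∧ ∀ᶠ x in 𝓝 (F (0, 0)), k x * B.eval x = A.eval x := by
  have hc : 0 < c := hC.pos
  set f₀ : ℂ → ℂ := fun t => F (t, 0) with hf₀
  have H₀ : Crv f₀ c := crv_of_con hC
  obtain ⟨-, r0, o0⟩ := ode_of_con hC (t := (0:ℂ)) (by simpa using hc)
  have ho0 : Ode k f₀ 0 := o0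
  rcases exists_max H₀ with ⟨f, h', hch', H, hM, hff⟩ | ⟨f, H, hff⟩
  · -- finite maximal height
    exfalso
    have hcc : Con k F (c / 2) := con_mono hC (by linarith) (by linarith)
    -- heights
    set S : Set ℝ := {y | ExtM F (c / 2) (c / 2 / 4) y 0} with hS
    have hdown : ∀ y ∈ S, ∀ y' ≤ y, y' ∈ S := by
      rintro y ⟨δ, hδ, hsub, G, hG, hGF⟩ y' hy'
      exact ⟨δ, hδ, hsub, G, hG.mono (prod_mono (fun t ht => ⟨ht.1, by linarith [ht.2]⟩) subset_rfl),
        fun p hp => hGF p ⟨⟨hp.1.1, lt_min (hp.1.2.trans_le (min_le_left _ _))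
          ((hp.1.2.trans_le (min_le_right _ _)).trans_le hy')⟩, hp.2⟩⟩
    have hcS : c ∈ S := by
      refine ⟨c / 2 / 4, by linarith, subset_rfl, F, ?_, fun p _ => EqM.refl F p⟩
      exact Mer.of_analytic fun p hp => hC.an p
        ⟨⟨by linarith [hp.1.1], hp.1.2⟩, ball_subset_ball (by linarith) hp.2⟩
    have hconE : ∀ h : ℝ, c / 2 < h → (∀ y < h, y ∈ S) → ∃ G : ℂ × ℂ → ℂ,
        ConE k F (c / 2) h G ∧ Crv (sl G 0) h ∧ sl G 0 =ᶠ[𝓝 (0:ℂ)] f₀ := by
      intro h hh hy
      obtain ⟨G, hE⟩ := exists_conE hcc hh hy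
      obtain ⟨H1, H2⟩ := crv_of_conE hE
      refine ⟨G, hE, H1, ?_⟩
      have : ∀ᶠ t : ℂ in 𝓝 0, |t.im| < c / 2 := by
        have h1 : ContinuousAt (fun t : ℂ => |t.im|) 0 := by fun_prop
        exact h1.eventually_lt continuousAt_const (by simpa using hc)
      filter_upwards [this] with t ht1
      rw [H2 t ht1]
    have hbdd : BddAbove S := by
      refine ⟨h', fun y hy => ?_⟩
      by_contra hlt
      push Not at hlt
      obtain ⟨G, hE, H1, H2⟩ := hconE y (by linarith) fun y' hy' => hdown y hy y' hy'.le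
      exact hM y hlt _ H1.mer (H2.trans hff.symm)
    set h := sSup S with hh
    have hch : c ≤ h := le_csSup hbdd hcS
    have hlt : ∀ y < h, y ∈ S := by
      intro y hy
      obtain ⟨y', hy', hyy'⟩ := exists_lt_of_lt_csSup ⟨c, hcS⟩ hy
      exact hdown y' hy' y hyy'.le
    have hgt : ∀ y > h, y ∉ S := fun y hy hyS => absurd (le_csSup hbdd hyS) (not_le.2 hy)
    obtain ⟨G, hE, H1, H2⟩ := hconE h (by linarith) hlt
    have hN := nb_one hE hgt
    have e0 : B (sl G 0 (0:ℝ)) k := by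
      rw [ofReal_zero, H2.eq_of_nhds]
      exact h0
    have e1 : Ode k (sl G 0) (0:ℝ) := by
      rw [ofReal_zero]
      exact ode_congr H2.symm ho0
    exact fv_local hN (val_of_max hB H1 (max_of_nb hN) e0 e1)
  · -- the curve extends to the plane
    have hof : Ode k f 0 := ode_congr hff.symm ho0
    have h0f : B (f 0) k := by
      rw [hff.eq_of_nhds]
      exact h0
    have R0 : Rg f 0 := by
      have := (H 1 one_pos).an 0
      have h2 := (H 1 one_pos).dr 0
      rw [ofReal_zero] at this h2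
      exact ⟨this, h2⟩
    by_cases hV : Val f univ N
    · obtain ⟨P, hP, hPe⟩ := alg_of_val H hV R0
      exact rational_con hC hff hP hPe
    unfold Val at hV
    push Not at hV
    obtain ⟨u, hu, hne⟩ := hV
    have hg : ∀ i, ∃ g : ℂ → ℂ, B (f (u i)) g ∧ Ode g f (u i) := by
      intro i
      have hpos : 0 < |(u i).im| + 1 := by positivity
      refine germ_strip hB (H _ hpos) (t₀ := 0) ?_ R0 h0f hof
        (abs_lt.1 (by linarith : |(u i).im| < |(u i).im| + 1)) (hu i).2.1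
      exact abs_lt.1 (by rw [zero_im, abs_zero]; exact hpos)
    choose g hg1 hg2 using hg
    obtain ⟨i, j, hij, he⟩ := hB.fin (f (u 0)) g fun i => by
      have := hg1 i
      rwa [(hu i).2.2] at this
    have heq : f (u i) = f (u j) := (hu i).2.2.trans (hu j).2.2.symm
    obtain ⟨A, B', hA, hAB, hev⟩ := aff_germ (hu i).2.1 (hu j).2.1 (hg2 i) (hg2 j) heq
      (by rwa [(hu i).2.2])
    have hsym : ∀ h > max |(u i).im| |(u j).im|, Sy f h A B' := by
      intro h hh
      have h1 : |(u i).im| < h := (le_max_left _ _).trans_lt hh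
      have h2 : |(u j).im| < h := (le_max_right _ _).trans_lt hh
      have hpos : 0 < h := (abs_nonneg _).trans_lt h1
      exact sy_of_germ (H h hpos) hA (abs_lt.1 h1) (by rw [hAB]; exact abs_lt.1 h2)
        (hev.filter_mono nhdsWithin_le_nhds).frequently
    have hs : ∀ s : ℂ, (fun w => f (A * w + B')) =ᶠ[𝓝[≠] s] f := by
      intro s
      set h := max (max |(u i).im| |(u j).im|) (max |s.im| |(A * s + B').im|) + 1 with hh
      have h1 : max |(u i).im| |(u j).im| < h := by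
        have := le_max_left (max |(u i).im| |(u j).im|) (max |s.im| |(A * s + B').im|)
        linarith
      have h2 : |s.im| < h := by
        have := (le_max_left |s.im| |(A * s + B').im|).trans
          (le_max_right (max |(u i).im| |(u j).im|) (max |s.im| |(A * s + B').im|))
        linarith
      have h3 : |(A * s + B').im| < h := by
        have := (le_max_right |s.im| |(A * s + B').im|).trans
          (le_max_right (max |(u i).im| |(u j).im|) (max |s.im| |(A * s + B').im|))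
        linarith
      exact (hsym h h1).eq s (abs_lt.1 h2) (abs_lt.1 h3)
    have hnt : ¬ (A = 1 ∧ ∃ n : ℤ, B' = n) := by
      rintro ⟨hA1, n, hn⟩
      refine hne i j hij n ?_
      rw [← hAB, hA1, hn, one_mul]
    obtain ⟨w₀, hw₀, hper⟩ := sy_inf H hA hs hnt
    obtain ⟨P, hP, hPe⟩ := alg_of_ell H hw₀ hper R0
    exact rational_con hC hff hP hPe

open Pool.Agent.MP_ae5b4e_an_hopf in
open Pool.Agent.MP_ae5b4e_an_MET (conic) in
open Pool.Agent.MP_ae5b4e_an_SMG (Fol) in
open Pool.Agent.MP_ae5b4e_an_RG (circ1 CFam smooth_kappa circle_mero) in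
/-- **Theorem FV**: fields whose meromorphic continuation has finitely many branches. -/
theorem circle_fv {U : ℝ → ℝ → ℝ} {κ : ℝ → ℝ} (hF : Fol circ1 U κ)
    (hreg : ContDiff ℝ ∞ κ ∨ (ContDiffOn ℝ ∞ (fun z : ℝ × ℝ => U z.1 z.2) (Ioo 0 1 ×ˢ univ) ∧
      ∀ c ∈ Ioo (0:ℝ) 1, ∀ t, deriv (fun r => U r t) c < 0))
    (hfin : ∀ (z : ℂ) (g : Fin (N + 1) → ℂ → ℂ), (∀ i, Branch κ z (g i)) →
      ∃ i j, i ≠ j ∧ g i =ᶠ[𝓝[≠] z] g j) :
    ∃ Q E : QuadraticForm ℝ (Fin 3 → ℝ), E.Nondegenerate ∧ circ1.trace = conic E ∧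
      (∀ θ, 0 < Q (circ1.Γ θ)) ∧
      ∀ c ∈ Ioo (0:ℝ) 1, ∃ ρ : ℝ, (Q - ρ • E).Nondegenerate ∧
        circ1.leaf U c = conic (Q - ρ • E) := by
  have hs := smooth_kappa circ1 hF hreg
  obtain ⟨k, F, c, hC, hk⟩ := exists_con (CFam.of_fol hF hs)
  have H₀ := crv_of_con hC
  have hc : 0 < c := hC.pos
  have hB := (fval_branch hfin).kern
  -- the base point
  set θ₀ : ℝ := (F (0, 0)).arg with hθ₀
  have hx₀ : F (0, 0) = exp (θ₀ * I) := by
    have h1 : ‖F (0, 0)‖ = 1 := by
      have := H₀.circ 0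
      rwa [ofReal_zero] at this
    have h2 := norm_mul_exp_arg_mul_I (F (0, 0))
    rw [h1, ofReal_one, one_mul] at h2
    exact h2.symm
  have hne : ∀ θ : ℝ, exp (θ * I) ≠ 0 := fun θ => exp_ne_zero _
  have huk : ∀ θ : ℝ, ukern k (exp (θ * I)) = κ θ := by
    intro θ
    have h1 := hne θ
    unfold ukern
    rw [hk]
    field_simp
    ring
  have h0 : Branch κ (F (0, 0)) (ukern k) := by
    rw [hx₀]
    refine Branch.base θ₀ _ ?_ (Eventually.of_forall huk)
    have h1 : AnalyticAt ℂ k (exp (θ₀ * I)) := by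
      rw [← hx₀]
      have hm : (0:ℂ) ∈ St (-c) c := by simpa using real_mem hc 0
      exact hC.reg ((0:ℂ), 0) ⟨hm, mem_ball_self hc⟩
    unfold ukern
    exact (analyticAt_const.mul analyticAt_id).mul (h1.add (analyticAt_id.inv (hne θ₀)))
  obtain ⟨P, Q, hQ, hPQ⟩ := con_rational hC hB h0
  -- a good point of the circle
  have hcont : Tendsto (fun θ : ℝ => exp (θ * I)) (𝓝 θ₀) (𝓝 (exp (θ₀ * I))) := by
    have : Continuous fun θ : ℝ => exp (θ * I) := by fun_prop
    exact this.continuousAt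
  rw [hx₀] at hPQ
  obtain ⟨δ, hδ, hev⟩ := Metric.eventually_nhds_iff_ball.1 (hcont.eventually hPQ)
  obtain ⟨θ₁, hθ₁, hQ₁⟩ : ∃ θ₁ ∈ Ioo θ₀ (θ₀ + min δ 1), Q.eval (exp (θ₁ * I)) ≠ 0 := by
    by_contra hcon
    push Not at hcon
    have hinj : InjOn (fun θ : ℝ => exp (θ * I)) (Ioo θ₀ (θ₀ + min δ 1)) := by
      intro a ha b hb hab
      obtain ⟨n, hn⟩ := exp_eq_exp_iff_exists_int.1 hab
      have h1 : (a : ℂ) = b + n * (2 * Real.pi) := by
        have h2 : (I : ℂ) ≠ 0 := I_ne_zero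
        apply mul_right_cancel₀ h2
        rw [hn]
        ring
      have h3 : a = b + n * (2 * Real.pi) := by exact_mod_cast h1
      have h4 : min δ 1 ≤ 1 := min_le_right _ _
      have h5 : |(n : ℝ) * (2 * Real.pi)| < 1 := by
        rw [show (n : ℝ) * (2 * Real.pi) = a - b by rw [h3]; ring, abs_lt]
        constructor <;> linarith [ha.1, ha.2, hb.1, hb.2]
      have h6 : n = 0 := by
        by_contra hn0
        have h7 : (1:ℝ) ≤ |(n:ℝ)| := by
          have := Int.one_le_abs hn0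
          exact_mod_cast this
        rw [abs_mul, abs_of_pos Real.two_pi_pos] at h5
        have h8 : (6:ℝ) < 2 * Real.pi := by linarith [Real.pi_gt_three]
        nlinarith
      rw [h3, h6]
      simp
    have hfinite : (Ioo θ₀ (θ₀ + min δ 1)).Finite := by
      refine Set.Finite.of_finite_image (f := fun θ : ℝ => exp (θ * I)) ?_ hinj
      refine (Q.roots.toFinset.finite_toSet).subset ?_
      rintro _ ⟨θ, hθ, rfl⟩
      simp only [Finset.mem_coe, Multiset.mem_toFinset, Polynomial.mem_roots hQ,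
        Polynomial.IsRoot.def]
      exact hcon θ hθ
    exact (Ioo_infinite (by have := lt_min hδ one_pos; linarith)) hfinite
  have hθδ : ∀ᶠ θ : ℝ in 𝓝 θ₁, θ ∈ ball θ₀ δ := by
    refine isOpen_ball.mem_nhds ?_
    rw [mem_ball, Real.dist_eq, abs_lt]
    have h4 : min δ 1 ≤ δ := min_le_left _ _
    constructor <;> linarith [hθ₁.1, hθ₁.2]
  -- the rational field
  set K₁ : ℂ → ℂ := fun x => 2 * I * x * (P.eval x / Q.eval x + x⁻¹) with hK₁
  have hcount : {z : ℂ | ¬ AnalyticAt ℂ K₁ z}.Countable := by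
    have hfinite : (insert (0:ℂ) (Q.roots.toFinset : Set ℂ)).Finite :=
      (Q.roots.toFinset.finite_toSet).insert 0
    refine hfinite.countable.mono fun z hz => ?_
    by_contra hcon
    rw [mem_insert_iff, not_or] at hcon
    obtain ⟨hz0, hzQ⟩ := hcon
    have hQz : Q.eval z ≠ 0 := by
      intro h
      apply hzQ
      simp only [Finset.mem_coe, Multiset.mem_toFinset, Polynomial.mem_roots hQ,
        Polynomial.IsRoot.def]
      exact h
    apply hz
    have hpoly : ∀ R : ℂ[X], AnalyticAt ℂ (fun x => R.eval x) z := fun R =>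
      AnalyticOnNhd.eval_polynomial R z (mem_univ _)
    exact (analyticAt_const.mul analyticAt_id).mul
      (((hpoly P).div (hpoly Q) hQz).add (analyticAt_id.inv hz0))
  refine circle_mero hF hreg hcount (θ₀ := θ₁) ?_
  have hQev : ∀ᶠ θ : ℝ in 𝓝 θ₁, Q.eval (exp (θ * I)) ≠ 0 := by
    have : Continuous fun θ : ℝ => Q.eval (exp (θ * I)) := by fun_prop
    exact this.continuousAt.eventually_ne hQ₁
  filter_upwards [hθδ, hQev] with θ h1 h2
  have h3 := hev θ h1
  have h4 : k (exp (θ * I)) = P.eval (exp (θ * I)) / Q.eval (exp (θ * I)) := by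
    rw [eq_div_iff h2]
    exact h3
  rw [hK₁]
  show _ = 2 * I * exp (θ * I) * (P.eval (exp (θ * I)) / Q.eval (exp (θ * I)) + (exp (θ * I))⁻¹)
  rw [← h4, ← huk θ]
  rfl

end Pool.Agent.MP_ae5b4e_an_FV
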