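import Mathlib
import Pool.Agent.Lib.MP_ae5b4e_an_FV.Fin

/-!
# MP_ae5b4e_an: foliations near a conic, fields of involutions with finitely many branches

After a projective map the conic `γ` is the unit circle.  The leaves are closed curves of the
projective plane, `0 < c < 1`, which converge to `γ` for `c → 0`; they are only continuous.  On the
tangent line to `γ` at the point with angle `θ` we use the coordinate `u` (`u = ∞` at the tangency
point, `1/u` is the signed distance from it); a projective involution fixing the tangency point is
`u ↦ κ θ - u`.  We assume that `κ` is smooth (automatic for a smooth foliation) and that the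
meromorphic continuation of `κ` from the circle to the complex domain has at most `N` branches over
every point of the plane (`Branch κ z g`: the germ of `g` at `z` is obtained from `κ` by
continuation along a chain of discs).  Examples are all algebraic fields and all fields with single
valued continuation; the singularities are arbitrary, natural boundaries are allowed.  Then the
leaves are conics of one pencil containing `γ`.  Nothing else is assumed: no analyticity of the
foliation, no first integral, no symmetry and nothing about periodic orbits, and the foliated
neighbourhood may be arbitrarily thin.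

Idea of the proof.  (0) `κ` is real-analytic.  Let `z` be a complex coordinate of the conic.  The
tangent lines through the vertices of a polygon inscribed in a leaf satisfy
`1/(z⁺ - z) + 1/(z⁻ - z) = k z`, and there is `F (t, ρ)`, holomorphic near `ℝ × {0}` and
`1`-periodic in `t`, such that `F (t + j ρ, ρ)`, `j ∈ ℤ`, are the vertices and `F₀ = F (·, 0)`
satisfies `k (F₀) = - F₀'' / F₀' ^ 2`.
(1) Let `h` be the maximal height such that `F` is meromorphic near `{|Im t| < h} × {0}`.  If `h` is
finite, then `F` is regular at NO point of the line `Im t = h`: if one point is regular, then for
small real `ρ` a singular point has regular vertices on both sides.  Either the vertices between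
them satisfy an abelian relation, which can be solved and gives `h = ∞`, or they are algebraic over
the field generated by the regular ones, and the branch points of `k` lead to two different
recursions with the same ends, which is impossible.
(2) Then `F₀` is locally univalent in the strip, and it has no affine symmetries except the period;
so it takes every value at most `N` times modulo `1`.
(3) Theorem U: `F₀` is not univalent on the disc of radius `D / (1 + ε)` about `t`, if `D` is the
distance of `t` from the line `Im t = h`.  (Otherwise the vertices over this disc can be followed
through the boundary line: the node equation is governed by functions of the class `Σ`, the area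
theorem gives a unique solution, and the subharmonicity of the logarithm of the Hartogs radius does
the rest.)
(4) Theorem A: a locally univalent function in a half disc which takes every value at most `N` times
is univalent on discs of radius `D / (1 + ε)`, as near to the boundary as one likes.  Proof: the
limits of the rescaled functions `(f (t + D (z + i)) - f t) / (D f' t)` form a compact class of
functions on the lower half plane, invariant under rescaling.  Let `p` be the minimal valence in
the class.  Then a function of valence `p` takes every value exactly `p` times, and the product of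
`z' - z` over the `p - 1` other points `z'` with the same value is a holomorphic function without
zeros which tends to `0` at the real line, a contradiction if `p > 1`.
(5) So `h = ∞`.  Then `F₀` is a rational function of `exp (2 π i t)` or an elliptic function, so `k`
is algebraic, and the theorem on algebraic fields shows that `k` is rational and that the leaves
are conics of a pencil.
-/

noncomputable section

namespace Pool.Agent.Results.MP_ae5b4e_an.FiniteBranchConic

open Real Set Filter Topology
open scoped ContDiff
open Pool.Agent.MP_ae5b4e_an_hopf
open Pool.Agent.MP_ae5b4e_an_MET (conic)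
open Pool.Agent.MP_ae5b4e_an_RG (circ1)
open Pool.Agent.MP_ae5b4e_an_FV (Branch)

/-- Continuous families of closed curves around the unit circle with projective involutions on the
tangent lines whose field is smooth and has finitely many branches in the complex domain consist of
conics of a pencil. -/
theorem result (U : ℝ → ℝ → ℝ) (κ : ℝ → ℝ) (N : ℕ)
    (hfin : ∀ (z : ℂ) (g : Fin (N + 1) → ℂ → ℂ), (∀ i, Branch κ z (g i)) →
      ∃ i j, i ≠ j ∧ g i =ᶠ[𝓝[≠] z] g j)
    (hcont : ContinuousOn (fun z : ℝ × ℝ => U z.1 z.2) (Ioo 0 1 ×ˢ univ))
    (hper : ∀ c ∈ Ioo (0:ℝ) 1, ∀ θ, U c (θ + 2 * π) = U c θ)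
    (hsimple : ∀ c ∈ Ioo (0:ℝ) 1, ∀ θ θ', circ1.pt θ (U c θ) = circ1.pt θ' (U c θ') →
      ∃ n : ℤ, θ' = θ + n * (2 * π))
    (hanti : ∀ θ, StrictAntiOn (fun c => U c θ) (Ioo 0 1))
    (hlim : ∀ θ, Tendsto (fun c => U c θ) (𝓝[>] 0) atTop)
    (hreg : ContDiff ℝ ∞ κ ∨ (ContDiffOn ℝ ∞ (fun z : ℝ × ℝ => U z.1 z.2) (Ioo 0 1 ×ˢ univ) ∧
      ∀ c ∈ Ioo (0:ℝ) 1, ∀ θ, deriv (fun r => U r θ) c < 0))
    (hproj : ∀ c ∈ Ioo (0:ℝ) 1, ∀ θ u v, u ≠ v → circ1.pt θ u ∈ circ1.leaf U c →
      circ1.pt θ v ∈ circ1.leaf U c → u + v = κ θ) :
    ∃ Q E : QuadraticForm ℝ (Fin 3 → ℝ), E.Nondegenerate ∧ circ1.trace = conic E ∧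
      (∀ θ, 0 < Q (circ1.Γ θ)) ∧
      ∀ c ∈ Ioo (0:ℝ) 1, ∃ ρ : ℝ, (Q - ρ • E).Nondegenerate ∧
        circ1.leaf U c = conic (Q - ρ • E) :=
  Pool.Agent.MP_ae5b4e_an_FV.circle_fv
    ⟨hcont, hper, hsimple, fun _ hc _ hc' hlt t => hanti t hc hc' hlt, hlim, hproj⟩ hreg hfin

end Pool.Agent.Results.MP_ae5b4e_an.FiniteBranchConic
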